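import Pool.Agent.U199.TW.Bra

/-!
# Twisted products: the theorems
-/

set_option autoImplicit false
set_option linter.unusedSectionVars false

open MvPolynomial

namespace Pool.Agent.U199.TW

open Pool.Agent.Q35.TT (Hom4 SmoothF FinSpecF SpecF ch fsf2 TorN SpecN SmoothN FinSpec)
open Pool.Agent.Q35.TB (ex taf2 exf2)

/-- There are only finitely many special planes for at most two factors. -/
theorem fs_of {K : Type} [Field K] [CharZero K] {n : ℕ} (G : MvPolynomial (Fin n × Fin 2) K)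
    (hG : Hom4 G) (hs : SmoothF G) (h : n ≤ 2 ∨ FinSpecF G) : FinSpecF G := by
  rcases h with h | h
  · interval_cases n
    · intro J hJ _
      obtain ⟨j, -⟩ := hJ
      exact j.elim0
    · intro J hJ hJ2
      exfalso
      apply hJ2
      obtain ⟨j, hj⟩ := hJ
      ext k
      rw [Subsingleton.elim k j]
      exact ⟨fun _ => Finset.mem_univ _, fun _ => hj⟩
    · exact fsf2 K G hG hs
  · exact h

section

variable {r : ℕ} {m : Fin r → ℕ} {K : Type} [Field K] [NumberField K]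
  {F : ∀ b : Fin r, MvPolynomial (Fin (m b) × Fin 2) K}

theorem tu_chart {n : ℕ} (G : MvPolynomial (Fin n × Fin 2) K) (hG : Hom4 G) (hs : SmoothF G)
    (hfin : FinSpecF G) (ε : Fin n → Fin 2) : TU (ch G ε) := by
  obtain ⟨c1, c2, -, -, c5, -⟩ := Pool.Agent.Q182.TT.CHF.chf K n G hG ε
  exact tu_base _ c1 (c2 hs) (c5 hfin)

theorem fin_all (hF : ∀ b, Hom4 (F b)) (hs : ∀ b, SmoothF (F b)) (hfin : ∀ b, FinSpecF (F b))
    {e : K} (he : e ≠ 0) {L : Type} [NontriviallyNormedField L] [CompleteSpace L] (σ : K →+* L)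
    (hσ : DenseRange σ) :
    {J | ∃ (w : L) (x : (Σ b, Fin (m b)) × Fin 2 → L), w ≠ 0 ∧
      w ^ 2 = eval₂ σ x (C e * prodF F) ∧ J = locF σ (C e * prodF F) w x}.Finite ∧
    ((∀ b, {J | ∃ x : Fin (m b) × Fin 2 → L, (∀ j, ∃ c, x (j, c) ≠ 0) ∧
      eval₂ σ x (F b) = 0 ∧ J = locB σ (F b) x}.Finite) →
      {J | ∃ (w : L) (x : (Σ b, Fin (m b)) × Fin 2 → L), (∀ j, ∃ c, x (j, c) ≠ 0) ∧
        w ^ 2 = eval₂ σ x (C e * prodF F) ∧ J = locF σ (C e * prodF F) w x}.Finite) := by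
  have : Infinite K := CharZero.infinite K
  obtain ⟨h1, h2⟩ := proj_fin σ hσ (prodF F) (chS F) (prodF_scale hF) (prodF_scale₂ hF σ)
    (chS_eval hF) (chS_eval₂ hF σ)
    (fun ε => tu_prod _ fun b => tu_chart (F b) (hF b) (hs b) (hfin b) _) he
  exact ⟨h1, fun hB => h2 (branch_prod hF σ hσ hB)⟩

/-- The factors have positive dimension. -/
theorem pos_of_smooth {n : ℕ} (G : MvPolynomial (Fin n × Fin 2) K) (hs : SmoothF G) :
    Nonempty (Fin n) := by
  obtain ⟨p, -⟩ := hs (fun _ => 1) (fun j => ⟨0, one_ne_zero⟩)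
  exact ⟨p.1⟩

/-- The local closure at one rational point. -/
theorem one_point (hr : 0 < r) (hF : ∀ b, Hom4 (F b)) (hs : ∀ b, SmoothF (F b))
    (hfin : ∀ b, FinSpecF (F b)) {e : K} (he : e ≠ 0) {L : Type} [NontriviallyNormedField L]
    [CompleteSpace L] (σ : K →+* L) (hσ : DenseRange σ) (W : K)
    (X : (Σ b, Fin (m b)) × Fin 2 → K) (ε : (Σ b, Fin (m b)) → Fin 2)
    (hX : ∀ j, X (j, ε j) ≠ 0) (hW : W ≠ 0) (hWX : W ^ 2 = eval X (C e * prodF F))
    (ht : ∀ b, ∃ i, ¬ TorN (ch (F b) fun i => ε ⟨b, i⟩) (fun i => zc ε X ⟨b, i⟩) i)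
    (hsp : ∀ b, ∀ J : Finset (Fin (m b)), J.Nonempty → J ≠ Finset.univ →
      ¬ SpecF (F b) (blk X b) J)
    (g : MvPolynomial (Option ((Σ b, Fin (m b)) × Fin 2)) K)
    (hg : g ∈ locF σ (C e * prodF F) (σ W) (fun p => σ (X p))) :
    (MvPolynomial.X none ^ 2 - rename some (C e * prodF F)) ∣ g := by
  have : Infinite K := CharZero.infinite K
  have hFX : ∀ b, eval (blk X b) (F b) ≠ 0 := by
    intro b hb
    rw [map_mul, eval_C, eval_prodF, Finset.prod_eq_zero (Finset.mem_univ b) hb, mul_zero] at hWX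
    exact hW (pow_eq_zero_iff two_ne_zero |>.1 hWX)
  have hXe : ∀ b, (fun p : Fin (m b) × Fin 2 => X (⟨b, p.1⟩, ε ⟨b, p.1⟩) *
      Pool.Agent.Q35.TT.pt (fun i => ε ⟨b, i⟩) (fun i => zc ε X ⟨b, i⟩) p) = blk X b := by
    intro b
    funext p
    exact pt_zc ε X hX (⟨b, p.1⟩, p.2)
  refine proj_dvd σ (prodF F) (f := chS F ε) (prodF_scale hF) (chS_eval hF ε) he W X hX hW hWX
    ?_ ?_ g hg
  · refine pf_prod σ _ _ fun b => ?_
    obtain ⟨c1, c2, -, c4, c5, -, c7⟩ := Pool.Agent.Q182.TT.CHF.chf K (m b) (F b) (hF b)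
      fun i => ε ⟨b, i⟩
    refine pf_base σ hσ _ c1 (c2 (hs b)) (c5 (hfin b)) _ (ht b) ?_
    intro J hJ1 hJ2 hJ
    apply hsp b J hJ1 hJ2
    have h5 := (c4 _ J).1 hJ
    have h6 := (c7 _ (fun i => X (⟨b, i⟩, ε ⟨b, i⟩)) J fun i => hX ⟨b, i⟩).2 h5
    have h7 := hXe b
    rw [← h7]
    exact h6
  · refine ns_prod _ _ hr (fun b => ?_) fun b => ?_
    · obtain ⟨c1, c2, c3, -, -, c6, -⟩ := Pool.Agent.Q182.TT.CHF.chf K (m b) (F b) (hF b)
        fun i => ε ⟨b, i⟩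
      have hne : eval (fun i => zc ε X ⟨b, i⟩) (ch (F b) fun i => ε ⟨b, i⟩) ≠ 0 := by
        intro h0
        rw [c3] at h0
        have h7 := c6 (Pool.Agent.Q35.TT.pt (fun i => ε ⟨b, i⟩) (fun i => zc ε X ⟨b, i⟩))
          (fun i => X (⟨b, i⟩, ε ⟨b, i⟩))
        rw [h0, mul_zero] at h7
        apply hFX b
        rw [← hXe b]
        exact h7
      have := pos_of_smooth (F b) (hs b)
      have h8 := ns_base _ c1 (c2 (hs b)) (fun i => zc ε X ⟨b, i⟩) Finset.univ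
        Finset.univ_nonempty hne (fun k hk => absurd (Finset.mem_univ k) hk)
      rwa [Finset.coe_univ] at h8
    · obtain ⟨-, -, c3, -, -, c6, -⟩ := Pool.Agent.Q182.TT.CHF.chf K (m b) (F b) (hF b)
        fun i => ε ⟨b, i⟩
      intro h0
      rw [c3] at h0
      have h7 := c6 (Pool.Agent.Q35.TT.pt (fun i => ε ⟨b, i⟩) (fun i => zc ε X ⟨b, i⟩))
        (fun i => X (⟨b, i⟩, ε ⟨b, i⟩))
      rw [h0, mul_zero] at h7
      apply hFX b
      rw [← hXe b]
      exact h7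

end

/-- One finite set for each factor, for all extensions of bounded degree, twists and places. -/
theorem all_ext {r : ℕ} (hr : 0 < r) {m : Fin r → ℕ} {K : Type} [Field K] [NumberField K]
    (F : ∀ b : Fin r, MvPolynomial (Fin (m b) × Fin 2) K) (hF : ∀ b, Hom4 (F b))
    (hs : ∀ b, SmoothF (F b)) (D : ℕ) :
    ∃ T : ∀ b : Fin r, Set (Fin (m b) × Fin 2 → AlgebraicClosure K), (∀ b, (T b).Finite) ∧
      ∀ (L : Type) [Field L] [NumberField L] [Algebra K L], Module.finrank K L ≤ D →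
      (∀ b, FinSpecF (ex L (F b))) → ∀ e : L, e ≠ 0 →
      ∀ (M : Type) [NontriviallyNormedField M] [CompleteSpace M] (σ : L →+* M), DenseRange σ →
      ∀ (W : L) (X : (Σ b, Fin (m b)) × Fin 2 → L), (∀ j, ∃ c, X (j, c) ≠ 0) → W ≠ 0 →
        W ^ 2 = eval X (C e * prodF fun b => ex L (F b)) →
        (∀ b, ∀ φ : L →ₐ[K] AlgebraicClosure K, ∀ t ∈ T b, ∀ a : Fin (m b) → AlgebraicClosure K,
          (fun p => φ (blk X b p)) ≠ fun p => a p.1 * t p) →
        (∀ b, ∀ J : Finset (Fin (m b)), J.Nonempty → J ≠ Finset.univ →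
          ¬ SpecF (ex L (F b)) (blk X b) J) →
        ∀ g ∈ locF σ (C e * prodF fun b => ex L (F b)) (σ W) (fun p => σ (X p)),
          (MvPolynomial.X none ^ 2 - rename some (C e * prodF fun b => ex L (F b))) ∣ g := by
  have hT : ∀ b, ∀ ε : Fin (m b) → Fin 2, ∃ T : Set (Fin (m b) → AlgebraicClosure K), T.Finite ∧
      ∀ (L : Type) [Field L] [NumberField L] [Algebra K L], Module.finrank K L ≤ D →
      ∀ z : Fin (m b) → L, (∀ i, TorN (ex L (ch (F b) ε)) z i) → ∀ φ : L →ₐ[K] AlgebraicClosure K,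
        (fun j => φ (z j)) ∈ T := fun b ε =>
    taf2 K (m b) (ch (F b) ε) (Pool.Agent.Q182.TT.CHF.chf K (m b) (F b) (hF b) ε).1
      ((Pool.Agent.Q182.TT.CHF.chf K (m b) (F b) (hF b) ε).2.1 (hs b)) D
  choose T hTf hT2 using hT
  refine ⟨fun b => ⋃ ε : Fin (m b) → Fin 2, Pool.Agent.Q35.TT.pt ε '' T b ε,
    fun b => Set.finite_iUnion fun ε => (hTf b ε).image _, ?_⟩
  intro L _ _ _ hD hfin e he M _ _ σ hσ W X hX hW hWX hnot hsp g hg
  have : Module.Finite K L := Module.Finite.of_restrictScalars_finite ℚ K L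
  have : Algebra.IsAlgebraic K L := Algebra.IsAlgebraic.of_finite K L
  choose ε hε using hX
  refine one_point hr (fun b => (exf2 K L (m b) (F b) (hF b)).1)
    (fun b => (exf2 K L (m b) (F b) (hF b)).2.1.1 (hs b)) hfin he σ hσ W X ε hε hW hWX ?_ hsp g hg
  intro b
  by_contra hno
  push Not at hno
  rw [(exf2 K L (m b) (F b) (hF b)).2.2.1 fun i => ε ⟨b, i⟩] at hno
  let φ : L →ₐ[K] AlgebraicClosure K := IsAlgClosed.lift
  have hm := hT2 b (fun i => ε ⟨b, i⟩) L hD _ hno φ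
  refine hnot b φ (Pool.Agent.Q35.TT.pt (fun i => ε ⟨b, i⟩) fun j => φ (zc ε X ⟨b, j⟩))
    (Set.mem_iUnion.2 ⟨_, _, hm, rfl⟩) (fun j => φ (X (⟨b, j⟩, ε ⟨b, j⟩))) ?_
  funext p
  have h5 := Pool.Agent.Q68.TT.Mzf.pt_map (φ : L →+* AlgebraicClosure K)
    (fun i => ε ⟨b, i⟩) (fun i => zc ε X ⟨b, i⟩) p
  have h6 := congrArg φ (pt_zc ε X hε (⟨b, p.1⟩, p.2))
  rw [map_mul] at h6
  show φ (X (⟨b, p.1⟩, p.2)) = _
  rw [← h6]
  exact congrArg (fun t => φ (X (⟨b, p.1⟩, ε ⟨b, p.1⟩)) * t) h5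

end Pool.Agent.U199.TW
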