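import Pool.Agent.U199.TW.Proj2

/-!
# Products of forms in separate blocks of variables
-/

set_option autoImplicit false
set_option linter.unusedSectionVars false

open MvPolynomial

namespace Pool.Agent.U199.TW

section

variable {r : ℕ} {m : Fin r → ℕ}

/-- The coordinates in the block `b`. -/
def blk {R : Type} (X : (Σ b, Fin (m b)) × Fin 2 → R) (b : Fin r) : Fin (m b) × Fin 2 → R :=
  fun p => X (⟨b, p.1⟩, p.2)

/-- The product of forms in separate blocks of variables. -/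
noncomputable def prodF {K : Type} [Field K] (F : ∀ b : Fin r, MvPolynomial (Fin (m b) × Fin 2) K) :
    MvPolynomial ((Σ b, Fin (m b)) × Fin 2) K :=
  ∏ b, rename (fun p : Fin (m b) × Fin 2 => ((⟨b, p.1⟩ : Σ b, Fin (m b)), p.2)) (F b)

theorem eval_prodF {K : Type} [Field K] (F : ∀ b : Fin r, MvPolynomial (Fin (m b) × Fin 2) K)
    (X : (Σ b, Fin (m b)) × Fin 2 → K) : eval X (prodF F) = ∏ b, eval (blk X b) (F b) := by
  unfold prodF
  rw [map_prod]
  refine Finset.prod_congr rfl fun b _ => ?_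
  rw [eval_rename]
  rfl

theorem eval₂_prodF {K L : Type} [Field K] [Field L] (σ : K →+* L)
    (F : ∀ b : Fin r, MvPolynomial (Fin (m b) × Fin 2) K) (x : (Σ b, Fin (m b)) × Fin 2 → L) :
    eval₂ σ x (prodF F) = ∏ b, eval₂ σ (blk x b) (F b) := by
  unfold prodF
  rw [← coe_eval₂Hom, map_prod]
  refine Finset.prod_congr rfl fun b _ => ?_
  rw [coe_eval₂Hom, eval₂_rename]
  rfl

theorem eval₂_prodS {K L : Type} [Field K] [Field L] (σ : K →+* L) {ι : Fin r → Type}
    (f : ∀ b, MvPolynomial (ι b) K) (z : (Σ b, ι b) → L) :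
    eval₂ σ z (prodS f) = ∏ b, eval₂ σ (fun i => z ⟨b, i⟩) (f b) := by
  unfold prodS
  rw [← coe_eval₂Hom, map_prod]
  refine Finset.prod_congr rfl fun b _ => ?_
  rw [coe_eval₂Hom, eval₂_rename]
  rfl

/-- the chart of the product -/
noncomputable def chS {K : Type} [Field K] (F : ∀ b : Fin r, MvPolynomial (Fin (m b) × Fin 2) K)
    (ε : (Σ b, Fin (m b)) → Fin 2) : MvPolynomial (Σ b, Fin (m b)) K :=
  prodS fun b => Pool.Agent.Q35.TT.ch (F b) fun i => ε ⟨b, i⟩

theorem blk_pt {R : Type} [One R] (ε : (Σ b, Fin (m b)) → Fin 2) (z : (Σ b, Fin (m b)) → R)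
    (b : Fin r) : blk (pt ε z) b = Pool.Agent.Q35.TT.pt (fun i => ε ⟨b, i⟩) fun i => z ⟨b, i⟩ := rfl

theorem prod_sig {R : Type} [CommMonoid R] (a : (Σ b, Fin (m b)) → R) :
    ∏ j, a j = ∏ b, ∏ i : Fin (m b), a ⟨b, i⟩ := Fintype.prod_sigma _

section hom

variable {K : Type} [Field K] [CharZero K] {F : ∀ b : Fin r, MvPolynomial (Fin (m b) × Fin 2) K}
  (hF : ∀ b, Pool.Agent.Q35.TT.Hom4 (F b))

include hF

theorem prodF_scale (X : (Σ b, Fin (m b)) × Fin 2 → K) (a : (Σ b, Fin (m b)) → K) :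
    eval (fun p => a p.1 * X p) (prodF F) = (∏ j, a j) ^ 4 * eval X (prodF F) := by
  rw [eval_prodF, eval_prodF, prod_sig, ← Finset.prod_pow, ← Finset.prod_mul_distrib]
  refine Finset.prod_congr rfl fun b _ => ?_
  exact (Pool.Agent.Q182.TT.CHF.chf K (m b) (F b) (hF b) (fun _ => 0)).2.2.2.2.2.1 (blk X b)
    fun i => a ⟨b, i⟩

theorem scale₂ {L : Type} [Field L] (σ : K →+* L) (b : Fin r) (x : Fin (m b) × Fin 2 → L)
    (a : Fin (m b) → L) : eval₂ σ (fun p => a p.1 * x p) (F b) = (∏ j, a j) ^ 4 * eval₂ σ x (F b) := by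
  have : CharZero L := charZero_of_injective_ringHom σ.injective
  have hFL : Pool.Agent.Q35.TT.Hom4 (MvPolynomial.map σ (F b)) :=
    fun k hk => hF b k (support_map_subset σ (F b) hk)
  have := (Pool.Agent.Q182.TT.CHF.chf L (m b) (MvPolynomial.map σ (F b)) hFL
    (fun _ => 0)).2.2.2.2.2.1 x a
  rwa [eval_map, eval_map] at this

theorem prodF_scale₂ {L : Type} [Field L] (σ : K →+* L) (x : (Σ b, Fin (m b)) × Fin 2 → L)
    (a : (Σ b, Fin (m b)) → L) :
    eval₂ σ (fun p => a p.1 * x p) (prodF F) = (∏ j, a j) ^ 4 * eval₂ σ x (prodF F) := by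
  rw [eval₂_prodF, eval₂_prodF, prod_sig, ← Finset.prod_pow, ← Finset.prod_mul_distrib]
  refine Finset.prod_congr rfl fun b _ => ?_
  exact scale₂ hF σ b (blk x b) fun i => a ⟨b, i⟩

theorem chS_eval (ε : (Σ b, Fin (m b)) → Fin 2) (z : (Σ b, Fin (m b)) → K) :
    eval z (chS F ε) = eval (pt ε z) (prodF F) := by
  unfold chS
  rw [eval_prodS, eval_prodF]
  refine Finset.prod_congr rfl fun b _ => ?_
  rw [blk_pt]
  exact (Pool.Agent.Q182.TT.CHF.chf K (m b) (F b) (hF b) fun i => ε ⟨b, i⟩).2.2.1 _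

theorem chS_eval₂ {L : Type} [Field L] (σ : K →+* L) (ε : (Σ b, Fin (m b)) → Fin 2)
    (z : (Σ b, Fin (m b)) → L) : eval₂ σ z (chS F ε) = eval₂ σ (pt ε z) (prodF F) := by
  unfold chS
  rw [eval₂_prodS, eval₂_prodF]
  refine Finset.prod_congr rfl fun b _ => ?_
  rw [blk_pt]
  exact Pool.Agent.Q68.TT.Mzf.eval₂_ch σ (F b) _ _

end hom

/-! ### The branch divisor -/

section branch

variable {K : Type} [Field K]

/-- the point with the coordinates `y` in the block `b` and `Y` in the other blocks -/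
def glue {R : Type} (b : Fin r) (y : Fin (m b) × Fin 2 → R) (Y : (Σ b, Fin (m b)) × Fin 2 → R)
    (p : (Σ b, Fin (m b)) × Fin 2) : R :=
  if h : p.1.1 = b then y (h ▸ p.1.2, p.2) else Y p

theorem glue_eq {R : Type} (b : Fin r) (y : Fin (m b) × Fin 2 → R)
    (Y : (Σ b, Fin (m b)) × Fin 2 → R) (i : Fin (m b)) (c : Fin 2) :
    glue b y Y (⟨b, i⟩, c) = y (i, c) := by
  unfold glue
  rw [dif_pos rfl]

theorem glue_ne {R : Type} (b : Fin r) (y : Fin (m b) × Fin 2 → R)
    (Y : (Σ b, Fin (m b)) × Fin 2 → R) (p : (Σ b, Fin (m b)) × Fin 2) (h : p.1.1 ≠ b) :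
    glue b y Y p = Y p := by
  unfold glue
  rw [dif_neg h]

theorem blk_glue {R : Type} (b : Fin r) (y : Fin (m b) × Fin 2 → R)
    (Y : (Σ b, Fin (m b)) × Fin 2 → R) : blk (glue b y Y) b = y := by
  funext p
  exact glue_eq b y Y p.1 p.2

theorem glue_blk {R : Type} (b : Fin r) (Y : (Σ b, Fin (m b)) × Fin 2 → R) :
    glue b (blk Y b) Y = Y := by
  funext p
  obtain ⟨⟨c, i⟩, d⟩ := p
  by_cases h : c = b
  · subst h
    exact glue_eq _ _ _ _ _
  · exact glue_ne _ _ _ _ h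

theorem glue_map {R S : Type} (φ : R → S) (b : Fin r) (y : Fin (m b) × Fin 2 → R)
    (Y : (Σ b, Fin (m b)) × Fin 2 → R) (p : (Σ b, Fin (m b)) × Fin 2) :
    φ (glue b y Y p) = glue b (fun q => φ (y q)) (fun q => φ (Y q)) p := by
  obtain ⟨⟨c, i⟩, d⟩ := p
  by_cases h : c = b
  · subst h
    rw [glue_eq, glue_eq]
  · rw [glue_ne _ _ _ _ h, glue_ne _ _ _ _ h]

/-- `g` as a polynomial in the variables of the other blocks -/
noncomputable def Psi (b : Fin r) : MvPolynomial ((Σ b, Fin (m b)) × Fin 2) K →ₐ[K]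
    MvPolynomial ((Σ b, Fin (m b)) × Fin 2) (MvPolynomial (Fin (m b) × Fin 2) K) :=
  aeval (glue b (fun q => C (X q)) fun q => X q)

theorem psi_eval (b : Fin r) (g : MvPolynomial ((Σ b, Fin (m b)) × Fin 2) K)
    (y : Fin (m b) × Fin 2 → K) (Y : (Σ b, Fin (m b)) × Fin 2 → K) :
    eval Y (MvPolynomial.map (eval y) (Psi b g)) = eval (glue b y Y) g := by
  have h : ((eval Y).comp ((MvPolynomial.map (eval y)).comp
      (Psi (K := K) (m := m) b : _ →+* _))) = eval (glue b y Y) := by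
    apply MvPolynomial.ringHom_ext
    · intro s
      simp [Psi, MvPolynomial.algebraMap_eq, IsScalarTower.algebraMap_apply K
        (MvPolynomial (Fin (m b) × Fin 2) K) (MvPolynomial ((Σ b, Fin (m b)) × Fin 2)
          (MvPolynomial (Fin (m b) × Fin 2) K))]
    · rintro ⟨⟨c, i⟩, d⟩
      simp only [RingHom.comp_apply, RingHom.coe_coe, Psi, aeval_X, eval_X]
      by_cases hc : c = b
      · subst hc
        rw [glue_eq, glue_eq, map_C, eval_X, eval_C]
      · rw [glue_ne _ _ _ _ hc, glue_ne _ _ _ _ hc, map_X, eval_X]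
  exact congrArg (fun g' => g' g) h

end branch

end

end Pool.Agent.U199.TW
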