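import Pool.Agent.U199.TW.Basic
import Pool.Agent.Q35.TB.All

/-!
# One finite exceptional set for all twists: products of polynomials in separate variables
-/

set_option autoImplicit false
set_option linter.unusedSectionVars false

namespace Pool.Agent.U199.TW

open MvPolynomial Pool.Agent.Q35.TT

/-- There are finitely many points and planes such that for all twists `w² = e f` and all places each
rational point with `w ≠ 0` is over one of the points, or moves in one of the planes. -/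
def TU {K : Type} [Field K] {ι : Type} (f : MvPolynomial ι K) : Prop :=
  ∃ (T : Set (ι → K)) (P : Set (Set (ι → K))), T.Finite ∧ P.Finite ∧
    ∀ (L : Type) [NontriviallyNormedField L] [CompleteSpace L] (σ : K →+* L), DenseRange σ →
    ∀ e : K, e ≠ 0 → ∀ (z : ι → K) (w : K), w ≠ 0 → w ^ 2 = e * eval z f →
      z ∈ T ∨ ∃ J : Set ι, FullS σ (C e * f) J z w ∧ {y | OnS J z y} ∈ P ∧ NS f J z

/-- All twists move in the whole space at the point `z`. -/
def PF {K L : Type} [Field K] [NontriviallyNormedField L] (σ : K →+* L) {ι : Type}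
    (f : MvPolynomial ι K) (z : ι → K) : Prop :=
  ∀ e : K, e ≠ 0 → ∀ w : K, w ≠ 0 → w ^ 2 = e * eval z f → FullS σ (C e * f) Set.univ z w

/-! ### Smooth forms -/

theorem ns_base {K : Type} [Field K] [CharZero K] {n : ℕ} (f : MvPolynomial (Fin n) K)
    (hf : ∀ j, f.degreeOf j ≤ 4) (hs : SmoothN f) (z : Fin n → K) (J : Finset (Fin n))
    (hJ : J.Nonempty) (hz : eval z f ≠ 0) (hsp : SpecN f z J) : NS f (J : Set (Fin n)) z := by
  intro e he G H hGH y hy
  obtain ⟨i1, i2, -, i4⟩ := Pool.Agent.Q35.TB.inv2 K n f hf e he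
  refine Pool.Agent.Q224.TT.nsq K n (C e * f) i1 (i2 hs) J z hJ ?_ (((i4 z).2 J).2 hsp) G H ?_ y ?_
  · rw [map_mul, eval_C]
    exact mul_ne_zero he hz
  · intro y hy
    rw [map_mul, eval_C]
    exact hGH y fun k hk => hy k (by simpa using hk)
  · exact fun k hk => hy k (by simpa using hk)

theorem full_base {K L : Type} [Field K] [NontriviallyNormedField L] (σ : K →+* L) {n : ℕ}
    {f : MvPolynomial (Fin n) K} {J : Finset (Fin n)} {z : Fin n → K} {w : K}
    (h : Full σ f J z w) : FullS σ f (J : Set (Fin n)) z w := by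
  intro ε hε g hg
  obtain ⟨y, hy, hyg⟩ := hg
  obtain ⟨z', w', h1, h2, h3, h4, h5⟩ := h ε hε g ⟨y, fun k hk => hy k (by simpa using hk), hyg⟩
  exact ⟨z', w', h1, fun k hk => h2 k (by simpa using hk), h3, h4, h5⟩

theorem tu_base {K : Type} [Field K] [NumberField K] {n : ℕ} (f : MvPolynomial (Fin n) K)
    (hf : ∀ j, f.degreeOf j ≤ 4) (hs : SmoothN f) (hfin : FinSpec f) : TU f := by
  refine ⟨{z | ∀ i, TorN f z i}, Pool.Agent.Q224.TT.EE f, tan2 K n f hf hs,
    Pool.Agent.Q224.TT.EE_finite f hfin, ?_⟩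
  intro L _ _ σ hσ e he z w hw hwz
  by_cases ht : ∀ i, TorN f z i
  · exact Or.inl ht
  · right
    obtain ⟨i1, i2, i3, i4⟩ := Pool.Agent.Q35.TB.inv2 K n f hf e he
    have hz : eval z f ≠ 0 := by
      intro h
      rw [h, mul_zero] at hwz
      exact hw (pow_eq_zero_iff two_ne_zero |>.1 hwz)
    obtain ⟨i0, hi0⟩ := not_forall.1 ht
    obtain ⟨J, hJ, hfull, hsp⟩ := cla_of orn2 K L σ hσ n (C e * f) i1 (i2 hs) (i3 hfin) z w hw (by
      rw [map_mul, eval_C]
      exact hwz) ⟨i0, fun h => hi0 (((i4 z).1 i0).1 h)⟩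
    have hsp' : SpecN f z J := ((i4 z).2 J).1 hsp
    refine ⟨(J : Set (Fin n)), full_base σ hfull, ⟨J, hJ, z, hz, hsp', ?_⟩,
      ns_base f hf hs z J hJ hz hsp'⟩
    ext y
    constructor
    · intro h k hk
      exact h k (by simpa using hk)
    · intro h k hk
      exact h k (by simpa using hk)

/-- At a point which is not torsion in all directions and not on special planes all twists move in
the whole space. -/
theorem pf_base {K L : Type} [Field K] [NumberField K] [NontriviallyNormedField L] [CompleteSpace L]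
    (σ : K →+* L) (hσ : DenseRange σ) {n : ℕ} (f : MvPolynomial (Fin n) K)
    (hf : ∀ j, f.degreeOf j ≤ 4) (hs : SmoothN f) (hfin : FinSpec f) (z : Fin n → K)
    (ht : ∃ i, ¬ TorN f z i)
    (hsp : ∀ J : Finset (Fin n), J.Nonempty → J ≠ Finset.univ → ¬ SpecN f z J) : PF σ f z := by
  intro e he w hw hwz
  obtain ⟨i1, i2, i3, i4⟩ := Pool.Agent.Q35.TB.inv2 K n f hf e he
  obtain ⟨i0, hi0⟩ := ht
  obtain ⟨J, hJ, hfull, hsp'⟩ := cla_of orn2 K L σ hσ n (C e * f) i1 (i2 hs) (i3 hfin) z w hw (by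
    rw [map_mul, eval_C]
    exact hwz) ⟨i0, fun h => hi0 (((i4 z).1 i0).1 h)⟩
  have hJu : J = Finset.univ := by
    by_contra hne
    exact hsp J hJ hne (((i4 z).2 J).1 hsp')
  have := full_base σ hfull
  rwa [hJu, Finset.coe_univ] at this

/-! ### Products -/

section

variable {K : Type} [Field K] {ι₁ ι₂ : Type}

theorem elim_eta (z : ι₁ ⊕ ι₂ → K) :
    Sum.elim (fun i => z (Sum.inl i)) (fun i => z (Sum.inr i)) = z := by
  funext k
  rcases k with k | k <;> rfl

theorem tu_mul [Infinite K] [Finite ι₂] {f₁ : MvPolynomial ι₁ K} {f₂ : MvPolynomial ι₂ K}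
    (h1 : TU f₁) (h2 : TU f₂) : TU (mulS f₁ f₂) := by
  classical
  obtain ⟨T₁, P₁, hT₁, hP₁, h1⟩ := h1
  obtain ⟨T₂, P₂, hT₂, hP₂, h2⟩ := h2
  -- the sets
  set A₁ : Set (Set (ι₁ → K)) := P₁ ∪ (fun t => {t}) '' T₁ with hA₁
  set A₂ : Set (Set (ι₂ → K)) := P₂ ∪ (fun t => {t}) '' T₂ with hA₂
  have hA₁f : A₁.Finite := hP₁.union (hT₁.image _)
  have hA₂f : A₂.Finite := hP₂.union (hT₂.image _)
  refine ⟨(fun q : (ι₁ → K) × (ι₂ → K) => Sum.elim q.1 q.2) '' (T₁ ×ˢ T₂),
    (fun q : Set (ι₁ → K) × Set (ι₂ → K) => {y : ι₁ ⊕ ι₂ → K | (fun i => y (Sum.inl i)) ∈ q.1 ∧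
      (fun i => y (Sum.inr i)) ∈ q.2}) '' (A₁ ×ˢ A₂), (hT₁.prod hT₂).image _,
    (hA₁f.prod hA₂f).image _, ?_⟩
  intro L _ _ σ hσ e he z w hw hwz
  rw [← elim_eta z]
  set z₁ : ι₁ → K := fun i => z (Sum.inl i) with hz₁
  set z₂ : ι₂ → K := fun i => z (Sum.inr i) with hz₂
  have hwz' : w ^ 2 = e * (eval z₁ f₁ * eval z₂ f₂) := by
    rw [hwz, ← eval_mulS, elim_eta z]
  have hne1 : eval z₁ f₁ ≠ 0 := by
    intro h
    rw [h, zero_mul, mul_zero] at hwz'
    exact hw (pow_eq_zero_iff two_ne_zero |>.1 hwz')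
  have hne2 : eval z₂ f₂ ≠ 0 := by
    intro h
    rw [h, mul_zero, mul_zero] at hwz'
    exact hw (pow_eq_zero_iff two_ne_zero |>.1 hwz')
  have hpl : ∀ (J₁ : Set ι₁) (J₂ : Set ι₂), {y | OnS J₁ z₁ y} ∈ A₁ → {y | OnS J₂ z₂ y} ∈ A₂ →
      {y | OnS (Sum.inl '' J₁ ∪ Sum.inr '' J₂) (Sum.elim z₁ z₂) y} ∈
        (fun q : Set (ι₁ → K) × Set (ι₂ → K) => {y : ι₁ ⊕ ι₂ → K | (fun i => y (Sum.inl i)) ∈ q.1 ∧
          (fun i => y (Sum.inr i)) ∈ q.2}) '' (A₁ ×ˢ A₂) := by
    intro J₁ J₂ k1 k2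
    refine ⟨({y | OnS J₁ z₁ y}, {y | OnS J₂ z₂ y}), ⟨k1, k2⟩, ?_⟩
    ext y
    show (OnS J₁ z₁ _ ∧ OnS J₂ z₂ _) ↔ OnS _ _ y
    rw [← on_sum, elim_eta y]
  have hsing1 : z₁ ∈ T₁ → {y | OnS (∅ : Set ι₁) z₁ y} ∈ A₁ := by
    intro h
    right
    refine ⟨z₁, h, ?_⟩
    ext y
    constructor
    · rintro rfl
      exact on_refl _ _
    · intro h
      show y = z₁
      funext k
      exact h k (Set.notMem_empty k)
  have hsing2 : z₂ ∈ T₂ → {y | OnS (∅ : Set ι₂) z₂ y} ∈ A₂ := by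
    intro h
    right
    refine ⟨z₂, h, ?_⟩
    ext y
    constructor
    · rintro rfl
      exact on_refl _ _
    · intro h
      show y = z₂
      funext k
      exact h k (Set.notMem_empty k)
  by_cases ht1 : z₁ ∈ T₁
  · by_cases ht2 : z₂ ∈ T₂
    · exact Or.inl ⟨(z₁, z₂), ⟨ht1, ht2⟩, rfl⟩
    · right
      rcases h2 L σ hσ (e * eval z₁ f₁) (mul_ne_zero he hne1) z₂ w hw (by rw [hwz']; ring) with h | h
      · exact absurd h ht2
      · obtain ⟨J₂, a1, a2, a3⟩ := h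
        exact ⟨_, full_inr σ a1, hpl ∅ J₂ (hsing1 ht1) (Or.inl a2), ns_right hne1 a3⟩
  · right
    rcases h1 L σ hσ (e * eval z₂ f₂) (mul_ne_zero he hne2) z₁ w hw (by rw [hwz']; ring) with h | h
    · exact absurd h ht1
    · obtain ⟨J₁, a1, a2, a3⟩ := h
      by_cases ht2 : z₂ ∈ T₂
      · exact ⟨_, full_inl σ a1, hpl J₁ ∅ (Or.inl a2) (hsing2 ht2), ns_left a3 hne2⟩
      · obtain ⟨J₂, b1, b2⟩ := full_both σ he hw hwz' a1
          (𝒥 := {J₂ | {y | OnS J₂ z₂ y} ∈ P₂ ∧ NS f₂ J₂ z₂}) (Set.toFinite _) (by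
            intro z' w' hw' hwz''
            have hz' : eval z' f₁ ≠ 0 := by
              intro h
              rw [h, zero_mul, mul_zero] at hwz''
              exact hw' (pow_eq_zero_iff two_ne_zero |>.1 hwz'')
            rcases h2 L σ hσ (e * eval z' f₁) (mul_ne_zero he hz') z₂ w' hw'
              (by rw [hwz'']; ring) with h | h
            · exact absurd h ht2
            · obtain ⟨J₂, c1, c2, c3⟩ := h
              exact ⟨J₂, ⟨c2, c3⟩, c1⟩)
        exact ⟨_, b2, hpl J₁ J₂ (Or.inl a2) (Or.inl b1.1), ns_right hne1 b1.2⟩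

theorem pf_mul [Infinite K] {L : Type} [NontriviallyNormedField L] (σ : K →+* L)
    {f₁ : MvPolynomial ι₁ K} {f₂ : MvPolynomial ι₂ K} {z₁ : ι₁ → K} {z₂ : ι₂ → K}
    (h1 : PF σ f₁ z₁) (h2 : PF σ f₂ z₂) : PF σ (mulS f₁ f₂) (Sum.elim z₁ z₂) := by
  intro e he w hw hwz
  rw [eval_mulS] at hwz
  have hne2 : eval z₂ f₂ ≠ 0 := by
    intro h
    rw [h, mul_zero, mul_zero] at hwz
    exact hw (pow_eq_zero_iff two_ne_zero |>.1 hwz)
  have hne1 : eval z₁ f₁ ≠ 0 := by
    intro h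
    rw [h, zero_mul, mul_zero] at hwz
    exact hw (pow_eq_zero_iff two_ne_zero |>.1 hwz)
  obtain ⟨J₂, b1, b2⟩ := full_both σ he hw hwz
    (h1 (e * eval z₂ f₂) (mul_ne_zero he hne2) w hw (by rw [hwz]; ring))
    (𝒥 := {Set.univ}) (Set.finite_singleton _) (by
      intro z' w' hw' hwz''
      have hz' : eval z' f₁ ≠ 0 := by
        intro h
        rw [h, zero_mul, mul_zero] at hwz''
        exact hw' (pow_eq_zero_iff two_ne_zero |>.1 hwz'')
      exact ⟨Set.univ, rfl, h2 (e * eval z' f₁) (mul_ne_zero he hz') w' hw' (by rw [hwz'']; ring)⟩)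
  rw [Set.mem_singleton_iff] at b1
  subst b1
  have hu : (Sum.inl '' (Set.univ : Set ι₁) ∪ Sum.inr '' (Set.univ : Set ι₂)) = Set.univ := by
    ext k
    rcases k with k | k <;> simp
  rwa [hu] at b2

theorem ns_univ_mul [Infinite K] {f₁ : MvPolynomial ι₁ K} {f₂ : MvPolynomial ι₂ K} {z₁ : ι₁ → K}
    {z₂ : ι₂ → K} (h1 : eval z₁ f₁ ≠ 0) (h2 : NS f₂ Set.univ z₂) :
    NS (mulS f₁ f₂) Set.univ (Sum.elim z₁ z₂) := by
  have := ns_right (J₁ := Set.univ) h1 h2
  have hu : (Sum.inl '' (Set.univ : Set ι₁) ∪ Sum.inr '' (Set.univ : Set ι₂)) = Set.univ := by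
    ext k
    rcases k with k | k <;> simp
  rwa [hu] at this

end

/-! ### Renaming the variables -/

section

variable {K : Type} [Field K] {ι ι' : Type} (E : ι ≃ ι')

theorem eval_ren (g : MvPolynomial ι' K) (y : ι' → K) :
    eval (y ∘ E) (rename E.symm g) = eval y g := by
  rw [eval_rename]
  congr 2
  funext k
  simp

theorem on_ren {J : Set ι} {z y : ι' → K} : OnS (E '' J) z y ↔ OnS J (z ∘ E) (y ∘ E) := by
  constructor
  · intro h k hk
    exact h (E k) (by simpa using hk)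
  · intro h k hk
    have := h (E.symm k) (by
      intro h'
      exact hk ⟨_, h', by simp⟩)
    simpa using this

theorem full_ren {L : Type} [NontriviallyNormedField L] (σ : K →+* L) {f : MvPolynomial ι K}
    {J : Set ι} {z : ι' → K} {w : K} (h : FullS σ f J (z ∘ E) w) :
    FullS σ (rename E f) (E '' J) z w := by
  intro ε hε g hg
  obtain ⟨y, hy, hyg⟩ := hg
  obtain ⟨z', w', a1, a2, a3, a4, a5⟩ := h ε hε (rename E.symm g) ⟨y ∘ E, (on_ren E).1 hy, by
    rw [eval_ren]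
    exact hyg⟩
  have hz' : (z' ∘ E.symm) ∘ E = z' := by
    funext k
    simp
  refine ⟨z' ∘ E.symm, w', ?_, ?_, ?_, a4, ?_⟩
  · rw [a1, eval_rename, hz']
  · rw [on_ren, hz']
    exact a2
  · intro k
    have := a3 (E.symm k)
    simpa using this
  · rw [← eval_ren E g, hz']
    exact a5

theorem ns_ren {f : MvPolynomial ι K} {J : Set ι} {z : ι' → K} (h : NS f J (z ∘ E)) :
    NS (rename E f) (E '' J) z := by
  intro e he G H hGH y hy
  have := h e he (rename E.symm G) (rename E.symm H) (by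
    intro y' hy'
    have hy'' : (y' ∘ E.symm) ∘ E = y' := by
      funext k
      simp
    have h1 := hGH (y' ∘ E.symm) (by
      rw [on_ren, hy'']
      exact hy')
    rw [eval_rename] at h1
    rw [eval_rename, eval_rename]
    rwa [hy''] at h1) (y ∘ E) ((on_ren E).1 hy)
  rwa [eval_ren, eval_ren] at this

theorem tu_ren {f : MvPolynomial ι K} (h : TU f) : TU (rename E f) := by
  obtain ⟨T, P, hT, hP, h⟩ := h
  refine ⟨(fun z => z ∘ E.symm) '' T, (fun S => {y : ι' → K | y ∘ E ∈ S}) '' P, hT.image _,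
    hP.image _, ?_⟩
  intro L _ _ σ hσ e he z w hw hwz
  rw [eval_rename] at hwz
  rcases h L σ hσ e he (z ∘ E) w hw hwz with h1 | ⟨J, h1, h2, h3⟩
  · left
    refine ⟨z ∘ E, h1, ?_⟩
    funext k
    simp
  · right
    refine ⟨E '' J, ?_, ⟨_, h2, ?_⟩, ns_ren E h3⟩
    · have := full_ren E σ h1
      rwa [map_mul, rename_C] at this
    · ext y
      exact (on_ren E).symm

theorem pf_ren {L : Type} [NontriviallyNormedField L] (σ : K →+* L) {f : MvPolynomial ι K}
    {z : ι' → K} (h : PF σ f (z ∘ E)) : PF σ (rename E f) z := by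
  intro e he w hw hwz
  rw [eval_rename] at hwz
  have := full_ren E σ (h e he w hw hwz)
  rw [map_mul, rename_C] at this
  rwa [Set.image_univ, E.surjective.range_eq] at this

theorem ns_univ_ren {f : MvPolynomial ι K} {z : ι' → K} (h : NS f Set.univ (z ∘ E)) :
    NS (rename E f) Set.univ z := by
  have := ns_ren E h
  rwa [Set.image_univ, E.surjective.range_eq] at this

end

/-! ### Products of any number of factors -/

section

variable {K : Type} [Field K]

/-- the product of polynomials in separate variables -/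
noncomputable def prodS {r : ℕ} {ι : Fin r → Type} (f : ∀ b, MvPolynomial (ι b) K) :
    MvPolynomial (Σ b, ι b) K := ∏ b, rename (Sigma.mk b) (f b)

theorem eval_prodS {r : ℕ} {ι : Fin r → Type} (f : ∀ b, MvPolynomial (ι b) K)
    (z : (Σ b, ι b) → K) : eval z (prodS f) = ∏ b, eval (fun i => z ⟨b, i⟩) (f b) := by
  unfold prodS
  rw [map_prod]
  refine Finset.prod_congr rfl fun b _ => ?_
  rw [eval_rename]
  rfl

/-- the first block and the other blocks -/
def mk1 {r : ℕ} (ι : Fin (r + 1) → Type) :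
    (ι 0 ⊕ (Σ b : Fin r, ι b.succ)) → (Σ b, ι b) :=
  Sum.elim (fun i => ⟨0, i⟩) fun p => ⟨p.1.succ, p.2⟩

theorem mk1_bij {r : ℕ} (ι : Fin (r + 1) → Type) : Function.Bijective (mk1 ι) := by
  constructor
  · rintro (i | ⟨b, i⟩) (j | ⟨c, j⟩) h
    · simp only [mk1, Sum.elim_inl, Sigma.mk.injEq, heq_eq_eq, true_and] at h
      rw [h]
    · simp only [mk1, Sum.elim_inl, Sum.elim_inr, Sigma.mk.injEq] at h
      exact absurd h.1 (Fin.succ_ne_zero c).symm
    · simp only [mk1, Sum.elim_inl, Sum.elim_inr, Sigma.mk.injEq] at h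
      exact absurd h.1 (Fin.succ_ne_zero b)
    · simp only [mk1, Sum.elim_inr, Sigma.mk.injEq, Fin.succ_inj] at h
      obtain ⟨rfl, h⟩ := h
      rw [eq_of_heq h]
  · rintro ⟨b, i⟩
    refine Fin.cases (motive := fun b => ∀ i : ι b, ∃ a, mk1 ι a = ⟨b, i⟩) ?_ ?_ b i
    · intro i
      exact ⟨Sum.inl i, rfl⟩
    · intro b i
      exact ⟨Sum.inr ⟨b, i⟩, rfl⟩

noncomputable def eq1 {r : ℕ} (ι : Fin (r + 1) → Type) :
    (ι 0 ⊕ (Σ b : Fin r, ι b.succ)) ≃ (Σ b, ι b) := Equiv.ofBijective (mk1 ι) (mk1_bij ι)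

theorem prodS_succ {r : ℕ} {ι : Fin (r + 1) → Type} (f : ∀ b, MvPolynomial (ι b) K) :
    prodS f = rename (eq1 ι) (mulS (f 0) (prodS fun b : Fin r => f b.succ)) := by
  unfold prodS mulS
  rw [Fin.prod_univ_succ, map_mul, rename_rename, map_prod, map_prod]
  congr 1
  refine Finset.prod_congr rfl fun b _ => ?_
  rw [rename_rename, rename_rename]
  rfl

theorem tu_prod [Infinite K] : ∀ {r : ℕ} {ι : Fin r → Type} [∀ b, Finite (ι b)]
    (f : ∀ b, MvPolynomial (ι b) K), (∀ b, TU (f b)) → TU (prodS f)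
  | 0, ι, _, f, _ => by
    refine ⟨Set.univ, ∅, ?_, Set.finite_empty, ?_⟩
    · have : Subsingleton ((Σ b : Fin 0, ι b) → K) :=
        ⟨fun x y => funext fun k => k.1.elim0⟩
      exact Set.subsingleton_univ.finite
    · intro L _ _ σ hσ e he z w hw hwz
      exact Or.inl (Set.mem_univ _)
  | r + 1, ι, _, f, h => by
    rw [prodS_succ]
    exact tu_ren _ (tu_mul (h 0) (tu_prod (fun b : Fin r => f b.succ) fun b => h b.succ))

theorem eq1_inl {r : ℕ} {ι : Fin (r + 1) → Type} (z : (Σ b, ι b) → K) :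
    z ∘ eq1 ι = Sum.elim (fun i => z ⟨0, i⟩) fun p : (Σ b : Fin r, ι b.succ) => z ⟨p.1.succ, p.2⟩ := by
  funext k
  rcases k with k | k <;> rfl

theorem full_one [Infinite K] {L : Type} [NontriviallyNormedField L] (σ : K →+* L)
    {ι : Fin 0 → Type} (f : ∀ b, MvPolynomial (ι b) K) (z : (Σ b, ι b) → K) :
    PF σ (prodS f) z := by
  intro e he w hw hwz ε hε g hg
  obtain ⟨y, hy, hyg⟩ := hg
  have : y = z := funext fun k => k.1.elim0
  subst this
  refine ⟨y, w, ?_, hy, fun k => k.1.elim0, by simpa using hε, hyg⟩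
  rw [map_mul, eval_C]
  exact hwz

theorem pf_prod [Infinite K] {L : Type} [NontriviallyNormedField L] (σ : K →+* L) :
    ∀ {r : ℕ} {ι : Fin r → Type} (f : ∀ b, MvPolynomial (ι b) K) (z : (Σ b, ι b) → K),
      (∀ b, PF σ (f b) fun i => z ⟨b, i⟩) → PF σ (prodS f) z
  | 0, ι, f, z, _ => full_one σ f z
  | r + 1, ι, f, z, h => by
    rw [prodS_succ]
    refine pf_ren _ σ ?_
    rw [eq1_inl]
    exact pf_mul σ (h 0) (pf_prod σ (fun b : Fin r => f b.succ)
      (fun p : (Σ b : Fin r, ι b.succ) => z ⟨p.1.succ, p.2⟩) fun b => h b.succ)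

theorem ns_prod [Infinite K] : ∀ {r : ℕ} {ι : Fin r → Type} (f : ∀ b, MvPolynomial (ι b) K)
    (z : (Σ b, ι b) → K), 0 < r → (∀ b, NS (f b) Set.univ fun i => z ⟨b, i⟩) →
      (∀ b, eval (fun i => z ⟨b, i⟩) (f b) ≠ 0) → NS (prodS f) Set.univ z
  | 0, ι, f, z, h0, _, _ => absurd h0 (lt_irrefl 0)
  | 1, ι, f, z, _, h, hne => by
    rw [prodS_succ]
    refine ns_univ_ren _ ?_
    rw [eq1_inl]
    have h1 := ns_left (f₁ := f 0) (f₂ := prodS fun b : Fin 0 => f b.succ) (J₁ := Set.univ)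
      (J₂ := Set.univ) (z₂ := fun p : (Σ b : Fin 0, ι b.succ) => z ⟨p.1.succ, p.2⟩) (h 0) (by
        rw [eval_prodS, Finset.univ_eq_empty, Finset.prod_empty]
        exact one_ne_zero)
    have hu : (Sum.inl '' (Set.univ : Set (ι 0)) ∪
        Sum.inr '' (Set.univ : Set (Σ b : Fin 0, ι b.succ))) = Set.univ := by
      ext k
      rcases k with k | k <;> simp
    rwa [hu] at h1
  | r + 2, ι, f, z, _, h, hne => by
    rw [prodS_succ]
    refine ns_univ_ren _ ?_
    rw [eq1_inl]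
    exact ns_univ_mul (hne 0) (ns_prod (fun b : Fin (r + 1) => f b.succ)
      (fun p : (Σ b : Fin (r + 1), ι b.succ) => z ⟨p.1.succ, p.2⟩) (Nat.succ_pos r)
      (fun b => h b.succ) fun b => hne b.succ)

end

end Pool.Agent.U199.TW
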