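import Mathlib

/-!
# Moving along planes: products of polynomials in separate variables

`FullS σ f J z w`: the `K`-points of `w² = f` close to `(w, z)` are Zariski dense in the plane through
`z` in the directions of `J`. `NS f J z`: on this plane no multiple `e f` is a square of a rational
function.
-/

set_option autoImplicit false
set_option linter.unusedSectionVars false

namespace Pool.Agent.U199.TW

open MvPolynomial

section

variable {K : Type} [Field K] {ι : Type}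

/-- `y` and `z` differ only in the directions of `J`. -/
def OnS (J : Set ι) (z y : ι → K) : Prop := ∀ k, k ∉ J → y k = z k

/-- The `K`-points of `w² = f` close to `(w, z)` on the plane through `z` in the directions of `J` are
Zariski dense in this plane. -/
def FullS {L : Type} [NontriviallyNormedField L] (σ : K →+* L) (f : MvPolynomial ι K) (J : Set ι)
    (z : ι → K) (w : K) : Prop :=
  ∀ ε : ℝ, 0 < ε → ∀ g : MvPolynomial ι K, (∃ y, OnS J z y ∧ eval y g ≠ 0) →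
    ∃ (z' : ι → K) (w' : K), w' ^ 2 = eval z' f ∧ OnS J z z' ∧
      (∀ k, ‖σ (z' k) - σ (z k)‖ < ε) ∧ ‖σ w' - σ w‖ < ε ∧ eval z' g ≠ 0

/-- No multiple of the restriction of `f` to the plane is a square of a rational function. -/
def NS (f : MvPolynomial ι K) (J : Set ι) (z : ι → K) : Prop :=
  ∀ e : K, e ≠ 0 → ∀ G H : MvPolynomial ι K,
    (∀ y, OnS J z y → eval y G ^ 2 = e * eval y f * eval y H ^ 2) →
    ∀ y, OnS J z y → eval y G = 0 ∧ eval y H = 0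

theorem on_refl (J : Set ι) (z : ι → K) : OnS J z z := fun _ _ => rfl

open Classical in
/-- the restriction to the plane -/
noncomputable def res (J : Set ι) (z : ι → K) (g : MvPolynomial ι K) : MvPolynomial ι K :=
  bind₁ (fun k => if k ∈ J then X k else C (z k)) g

open Classical in
theorem eval_res (J : Set ι) (z y : ι → K) (g : MvPolynomial ι K) :
    eval y (res J z g) = eval (fun k => if k ∈ J then y k else z k) g := by
  unfold res
  rw [← MvPolynomial.coe_aeval_eq_eval, ← MvPolynomial.coe_aeval_eq_eval]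
  change aeval y (bind₁ _ g) = aeval _ g
  rw [aeval_bind₁]
  congr 2
  funext k
  by_cases h : k ∈ J
  · simp [h]
  · simp [h]

theorem res_ne_zero [Infinite K] (J : Set ι) (z : ι → K) (g : MvPolynomial ι K) :
    res J z g ≠ 0 ↔ ∃ y, OnS J z y ∧ eval y g ≠ 0 := by
  classical
  constructor
  · intro h
    by_contra hno
    push Not at hno
    apply h
    apply MvPolynomial.funext
    intro y
    rw [eval_res, map_zero]
    refine hno _ fun k hk => ?_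
    simp [hk]
  · rintro ⟨y, hy, hg⟩ h
    apply hg
    have h1 := eval_res J z y g
    rw [h, map_zero] at h1
    have h2 : (fun k => if k ∈ J then y k else z k) = y := by
      funext k
      by_cases hk : k ∈ J
      · simp [hk]
      · simp [hk, hy k hk]
    rw [h2] at h1
    exact h1.symm

theorem nv_mul [Infinite K] {J : Set ι} {z : ι → K} {g h : MvPolynomial ι K}
    (hg : ∃ y, OnS J z y ∧ eval y g ≠ 0) (hh : ∃ y, OnS J z y ∧ eval y h ≠ 0) :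
    ∃ y, OnS J z y ∧ eval y (g * h) ≠ 0 := by
  rw [← res_ne_zero] at hg hh ⊢
  have : res J z (g * h) = res J z g * res J z h := by
    unfold res
    rw [map_mul]
  rw [this]
  exact mul_ne_zero hg hh

theorem nv_prod [Infinite K] {κ : Type} {J : Set ι} {z : ι → K} (s : Finset κ)
    (g : κ → MvPolynomial ι K) (hg : ∀ i ∈ s, ∃ y, OnS J z y ∧ eval y (g i) ≠ 0) :
    ∃ y, OnS J z y ∧ eval y (∏ i ∈ s, g i) ≠ 0 := by
  classical
  induction s using Finset.induction_on with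
  | empty => exact ⟨z, on_refl J z, by simp⟩
  | insert a s ha ih =>
    rw [Finset.prod_insert ha]
    exact nv_mul (hg a (Finset.mem_insert_self a s))
      (ih fun i hi => hg i (Finset.mem_insert_of_mem hi))

end

/-! ### Two blocks of variables -/

section two

variable {K : Type} [Field K] {ι₁ ι₂ : Type}

/-- the substitution of constants in the first block -/
noncomputable def fixl (z : ι₁ → K) (g : MvPolynomial (ι₁ ⊕ ι₂) K) : MvPolynomial ι₂ K :=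
  bind₁ (Sum.elim (fun i => C (z i)) X) g

/-- the substitution of constants in the second block -/
noncomputable def fixr (z : ι₂ → K) (g : MvPolynomial (ι₁ ⊕ ι₂) K) : MvPolynomial ι₁ K :=
  bind₁ (Sum.elim X fun i => C (z i)) g

theorem eval_fixl (z : ι₁ → K) (y : ι₂ → K) (g : MvPolynomial (ι₁ ⊕ ι₂) K) :
    eval y (fixl z g) = eval (Sum.elim z y) g := by
  unfold fixl
  rw [← MvPolynomial.coe_aeval_eq_eval, ← MvPolynomial.coe_aeval_eq_eval]
  change aeval y (bind₁ _ g) = aeval _ g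
  rw [aeval_bind₁]
  congr 2
  funext k
  rcases k with k | k
  · simp
  · simp

theorem eval_fixr (z : ι₂ → K) (y : ι₁ → K) (g : MvPolynomial (ι₁ ⊕ ι₂) K) :
    eval y (fixr z g) = eval (Sum.elim y z) g := by
  unfold fixr
  rw [← MvPolynomial.coe_aeval_eq_eval, ← MvPolynomial.coe_aeval_eq_eval]
  change aeval y (bind₁ _ g) = aeval _ g
  rw [aeval_bind₁]
  congr 2
  funext k
  rcases k with k | k
  · simp
  · simp

/-- the product of two polynomials in separate variables -/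
noncomputable def mulS (f₁ : MvPolynomial ι₁ K) (f₂ : MvPolynomial ι₂ K) :
    MvPolynomial (ι₁ ⊕ ι₂) K := rename Sum.inl f₁ * rename Sum.inr f₂

theorem eval_mulS (f₁ : MvPolynomial ι₁ K) (f₂ : MvPolynomial ι₂ K) (z₁ : ι₁ → K) (z₂ : ι₂ → K) :
    eval (Sum.elim z₁ z₂) (mulS f₁ f₂) = eval z₁ f₁ * eval z₂ f₂ := by
  unfold mulS
  rw [map_mul, eval_rename, eval_rename]
  rfl

theorem on_sum {J₁ : Set ι₁} {J₂ : Set ι₂} {z₁ y₁ : ι₁ → K} {z₂ y₂ : ι₂ → K} :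
    OnS (Sum.inl '' J₁ ∪ Sum.inr '' J₂) (Sum.elim z₁ z₂) (Sum.elim y₁ y₂) ↔
      OnS J₁ z₁ y₁ ∧ OnS J₂ z₂ y₂ := by
  constructor
  · intro h
    refine ⟨fun k hk => ?_, fun k hk => ?_⟩
    · have := h (Sum.inl k) (by simpa using hk)
      simpa using this
    · have := h (Sum.inr k) (by simpa using hk)
      simpa using this
  · rintro ⟨h1, h2⟩ k hk
    rcases k with k | k
    · have : k ∉ J₁ := by simpa using hk
      simpa using h1 k this
    · have : k ∉ J₂ := by simpa using hk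
      simpa using h2 k this

variable {L : Type} [NontriviallyNormedField L]

/-- **Adding the second block.** -/
theorem full_both [Infinite K] (σ : K →+* L) {f₁ : MvPolynomial ι₁ K} {f₂ : MvPolynomial ι₂ K}
    {e : K} (he : e ≠ 0) {z₁ : ι₁ → K} {z₂ : ι₂ → K} {w : K} (hw : w ≠ 0)
    (hwz : w ^ 2 = e * (eval z₁ f₁ * eval z₂ f₂)) {J₁ : Set ι₁}
    (h1 : FullS σ (C (e * eval z₂ f₂) * f₁) J₁ z₁ w) {𝒥 : Set (Set ι₂)} (h𝒥 : 𝒥.Finite)
    (h2 : ∀ (z' : ι₁ → K) (w' : K), w' ≠ 0 → w' ^ 2 = e * (eval z' f₁ * eval z₂ f₂) →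
      ∃ J₂ ∈ 𝒥, FullS σ (C (e * eval z' f₁) * f₂) J₂ z₂ w') :
    ∃ J₂ ∈ 𝒥, FullS σ (C e * mulS f₁ f₂) (Sum.inl '' J₁ ∪ Sum.inr '' J₂) (Sum.elim z₁ z₂) w := by
  classical
  by_contra hno
  push Not at hno
  have hno' : ∀ J₂ : Set ι₂, ∃ (ε : ℝ) (g : MvPolynomial (ι₁ ⊕ ι₂) K) (y₁ : ι₁ → K) (y₂ : ι₂ → K),
      0 < ε ∧ OnS J₁ z₁ y₁ ∧ eval (Sum.elim y₁ y₂) g ≠ 0 ∧ (J₂ ∈ 𝒥 → OnS J₂ z₂ y₂ ∧
        ∀ (z' : ι₁ → K) (z'' : ι₂ → K) (w' : K), w' ^ 2 = e * (eval z' f₁ * eval z'' f₂) →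
          OnS J₁ z₁ z' → OnS J₂ z₂ z'' → (∀ k, ‖σ (z' k) - σ (z₁ k)‖ < ε) →
          (∀ k, ‖σ (z'' k) - σ (z₂ k)‖ < ε) → ‖σ w' - σ w‖ < ε →
          eval (Sum.elim z' z'') g = 0) := by
    intro J₂
    by_cases hJ : J₂ ∈ 𝒥
    · have h := hno J₂ hJ
      unfold FullS at h
      push Not at h
      obtain ⟨ε, hε, g, ⟨y, hy, hyg⟩, h3⟩ := h
      have hye : y = Sum.elim (fun i => y (Sum.inl i)) (fun i => y (Sum.inr i)) := by
        funext k
        rcases k with k | k <;> rfl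
      rw [hye] at hy hyg
      obtain ⟨hy1, hy2⟩ := on_sum.1 hy
      refine ⟨ε, g, _, _, hε, hy1, hyg, fun _ => ⟨hy2, ?_⟩⟩
      intro z' z'' w' k1 k2 k3 k4 k5 k6
      refine h3 (Sum.elim z' z'') w' ?_ (on_sum.2 ⟨k2, k3⟩) ?_ k6
      · rw [map_mul, eval_C, eval_mulS, k1]
      · intro k
        rcases k with k | k
        · exact k4 k
        · exact k5 k
    · exact ⟨1, 1, z₁, z₂, one_pos, on_refl _ _, by simp, fun h => absurd h hJ⟩
  choose ε g y₁ y₂ hε hy1 hyg hprop using hno'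
  obtain ⟨δ, hδ, hδ1⟩ : ∃ δ : ℝ, 0 < δ ∧ ∀ J ∈ 𝒥, δ ≤ ε J := by
    by_cases hne : 𝒥.Nonempty
    · obtain ⟨J0, hJ0, hJ1⟩ := Set.exists_min_image 𝒥 ε h𝒥 hne
      exact ⟨ε J0, hε J0, hJ1⟩
    · rw [Set.not_nonempty_iff_eq_empty] at hne
      exact ⟨1, one_pos, fun J hJ => absurd hJ (by rw [hne]; exact Set.notMem_empty J)⟩
  have hf1 : eval z₁ f₁ ≠ 0 := by
    intro h
    rw [h, zero_mul, mul_zero] at hwz
    exact hw (pow_eq_zero_iff two_ne_zero |>.1 hwz)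
  have hf2 : eval z₂ f₂ ≠ 0 := by
    intro h
    rw [h, mul_zero, mul_zero] at hwz
    exact hw (pow_eq_zero_iff two_ne_zero |>.1 hwz)
  have hnv : ∃ y, OnS J₁ z₁ y ∧
      eval y (f₁ * ∏ J ∈ h𝒥.toFinset, fixr (y₂ J) (g J)) ≠ 0 := by
    refine nv_mul ⟨z₁, on_refl _ _, hf1⟩ (nv_prod _ _ fun J _ => ⟨y₁ J, hy1 J, ?_⟩)
    rw [eval_fixr]
    exact hyg J
  obtain ⟨z', w', a1, a2, a3, a4, a5⟩ := h1 (δ / 2) (half_pos hδ) _ hnv
  rw [map_mul, map_prod] at a5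
  have hz' : eval z' f₁ ≠ 0 := left_ne_zero_of_mul a5
  have a6 := Finset.prod_ne_zero_iff.1 (right_ne_zero_of_mul a5)
  have a1' : w' ^ 2 = e * (eval z' f₁ * eval z₂ f₂) := by
    rw [a1, map_mul, eval_C]
    ring
  have hw' : w' ≠ 0 := by
    intro h
    rw [h, zero_pow two_ne_zero] at a1'
    exact mul_ne_zero he (mul_ne_zero hz' hf2) a1'.symm
  obtain ⟨J, hJ, hfull⟩ := h2 z' w' hw' a1'
  have a7 := a6 J (by simpa using hJ)
  rw [eval_fixr] at a7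
  obtain ⟨hy2, hp⟩ := hprop J hJ
  obtain ⟨z'', w'', b1, b2, b3, b4, b5⟩ := hfull (δ / 2) (half_pos hδ) (fixl z' (g J))
    ⟨y₂ J, hy2, by rw [eval_fixl]; exact a7⟩
  rw [eval_fixl] at b5
  have hδJ := hδ1 J hJ
  refine b5 (hp z' z'' w'' ?_ a2 b2 ?_ ?_ ?_)
  · rw [b1, map_mul, eval_C]
    ring
  · intro k
    linarith [a3 k]
  · intro k
    linarith [b3 k]
  · have := norm_sub_le_norm_sub_add_norm_sub (σ w'') (σ w') (σ w)
    linarith

/-- Moving only in the second block. -/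
theorem full_inr (σ : K →+* L) {f₁ : MvPolynomial ι₁ K} {f₂ : MvPolynomial ι₂ K}
    {e : K} {z₁ : ι₁ → K} {z₂ : ι₂ → K} {w : K} {J₂ : Set ι₂}
    (h : FullS σ (C (e * eval z₁ f₁) * f₂) J₂ z₂ w) :
    FullS σ (C e * mulS f₁ f₂) (Sum.inl '' (∅ : Set ι₁) ∪ Sum.inr '' J₂) (Sum.elim z₁ z₂) w := by
  intro ε hε g hg
  obtain ⟨y, hy, hyg⟩ := hg
  have hye : y = Sum.elim (fun i => y (Sum.inl i)) (fun i => y (Sum.inr i)) := by
    funext k
    rcases k with k | k <;> rfl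
  rw [hye] at hy hyg
  obtain ⟨hy1, hy2⟩ := on_sum.1 hy
  have hy1' : (fun i => y (Sum.inl i)) = z₁ := by
    funext k
    exact hy1 k (Set.notMem_empty k)
  rw [hy1'] at hyg
  obtain ⟨z', w', a1, a2, a3, a4, a5⟩ := h ε hε (fixl z₁ g) ⟨_, hy2, by
    rw [eval_fixl]
    exact hyg⟩
  rw [eval_fixl] at a5
  refine ⟨Sum.elim z₁ z', w', ?_, on_sum.2 ⟨on_refl _ _, a2⟩, ?_, a4, a5⟩
  · rw [a1, map_mul, eval_C, map_mul, eval_C, eval_mulS]
    ring
  · intro k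
    rcases k with k | k
    · simpa using hε
    · exact a3 k

/-- Moving only in the first block. -/
theorem full_inl (σ : K →+* L) {f₁ : MvPolynomial ι₁ K} {f₂ : MvPolynomial ι₂ K}
    {e : K} {z₁ : ι₁ → K} {z₂ : ι₂ → K} {w : K} {J₁ : Set ι₁}
    (h : FullS σ (C (e * eval z₂ f₂) * f₁) J₁ z₁ w) :
    FullS σ (C e * mulS f₁ f₂) (Sum.inl '' J₁ ∪ Sum.inr '' (∅ : Set ι₂)) (Sum.elim z₁ z₂) w := by
  intro ε hε g hg
  obtain ⟨y, hy, hyg⟩ := hg
  have hye : y = Sum.elim (fun i => y (Sum.inl i)) (fun i => y (Sum.inr i)) := by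
    funext k
    rcases k with k | k <;> rfl
  rw [hye] at hy hyg
  obtain ⟨hy1, hy2⟩ := on_sum.1 hy
  have hy2' : (fun i => y (Sum.inr i)) = z₂ := by
    funext k
    exact hy2 k (Set.notMem_empty k)
  rw [hy2'] at hyg
  obtain ⟨z', w', a1, a2, a3, a4, a5⟩ := h ε hε (fixr z₂ g) ⟨_, hy1, by
    rw [eval_fixr]
    exact hyg⟩
  rw [eval_fixr] at a5
  refine ⟨Sum.elim z' z₂, w', ?_, on_sum.2 ⟨a2, on_refl _ _⟩, ?_, a4, a5⟩
  · rw [a1, map_mul, eval_C, map_mul, eval_C, eval_mulS]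
    ring
  · intro k
    rcases k with k | k
    · exact a3 k
    · simpa using hε

/-- If the second factor is not a square then the product is not a square. -/
theorem ns_right [Infinite K] {f₁ : MvPolynomial ι₁ K} {f₂ : MvPolynomial ι₂ K} {J₁ : Set ι₁}
    {J₂ : Set ι₂} {z₁ : ι₁ → K} {z₂ : ι₂ → K} (h1 : eval z₁ f₁ ≠ 0) (h2 : NS f₂ J₂ z₂) :
    NS (mulS f₁ f₂) (Sum.inl '' J₁ ∪ Sum.inr '' J₂) (Sum.elim z₁ z₂) := by
  intro e he G H hGH y hy
  have hye : y = Sum.elim (fun i => y (Sum.inl i)) (fun i => y (Sum.inr i)) := by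
    funext k
    rcases k with k | k <;> rfl
  rw [hye] at hy ⊢
  obtain ⟨hy1, hy2⟩ := on_sum.1 hy
  have key : ∀ y₁, OnS J₁ z₁ y₁ → eval y₁ f₁ ≠ 0 → ∀ y₂, OnS J₂ z₂ y₂ →
      eval (Sum.elim y₁ y₂) G = 0 ∧ eval (Sum.elim y₁ y₂) H = 0 := by
    intro y₁ k1 k2 y₂ k3
    have k4 := h2 (e * eval y₁ f₁) (mul_ne_zero he k2) (fixl y₁ G) (fixl y₁ H) (by
      intro y' hy'
      rw [eval_fixl, eval_fixl, hGH _ (on_sum.2 ⟨k1, hy'⟩), eval_mulS]
      ring) y₂ k3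
    rwa [eval_fixl, eval_fixl] at k4
  have gen : ∀ P : MvPolynomial (ι₁ ⊕ ι₂) K, (∀ y₁, OnS J₁ z₁ y₁ → eval y₁ f₁ ≠ 0 → ∀ y₂,
      OnS J₂ z₂ y₂ → eval (Sum.elim y₁ y₂) P = 0) → ∀ y₁ y₂, OnS J₁ z₁ y₁ → OnS J₂ z₂ y₂ →
      eval (Sum.elim y₁ y₂) P = 0 := by
    intro P hP y₁ y₂ k1 k2
    by_contra hne
    obtain ⟨y', hy', hne'⟩ := nv_mul (J := J₁) (z := z₁) (g := f₁) (h := fixr y₂ P)
      ⟨z₁, on_refl _ _, h1⟩ ⟨y₁, k1, by rw [eval_fixr]; exact hne⟩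
    rw [map_mul] at hne'
    have h3 := right_ne_zero_of_mul hne'
    rw [eval_fixr] at h3
    exact h3 (hP y' hy' (left_ne_zero_of_mul hne') y₂ k2)
  exact ⟨gen G (fun y₁ k1 k2 y₂ k3 => (key y₁ k1 k2 y₂ k3).1) _ _ hy1 hy2,
    gen H (fun y₁ k1 k2 y₂ k3 => (key y₁ k1 k2 y₂ k3).2) _ _ hy1 hy2⟩

/-- If the first factor is not a square then the product is not a square. -/
theorem ns_left [Infinite K] {f₁ : MvPolynomial ι₁ K} {f₂ : MvPolynomial ι₂ K} {J₁ : Set ι₁}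
    {J₂ : Set ι₂} {z₁ : ι₁ → K} {z₂ : ι₂ → K} (h1 : NS f₁ J₁ z₁) (h2 : eval z₂ f₂ ≠ 0) :
    NS (mulS f₁ f₂) (Sum.inl '' J₁ ∪ Sum.inr '' J₂) (Sum.elim z₁ z₂) := by
  intro e he G H hGH y hy
  have hye : y = Sum.elim (fun i => y (Sum.inl i)) (fun i => y (Sum.inr i)) := by
    funext k
    rcases k with k | k <;> rfl
  rw [hye] at hy ⊢
  obtain ⟨hy1, hy2⟩ := on_sum.1 hy
  have key : ∀ y₂, OnS J₂ z₂ y₂ → eval y₂ f₂ ≠ 0 → ∀ y₁, OnS J₁ z₁ y₁ →
      eval (Sum.elim y₁ y₂) G = 0 ∧ eval (Sum.elim y₁ y₂) H = 0 := by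
    intro y₂ k1 k2 y₁ k3
    have k4 := h1 (e * eval y₂ f₂) (mul_ne_zero he k2) (fixr y₂ G) (fixr y₂ H) (by
      intro y' hy'
      rw [eval_fixr, eval_fixr, hGH _ (on_sum.2 ⟨hy', k1⟩), eval_mulS]
      ring) y₁ k3
    rwa [eval_fixr, eval_fixr] at k4
  have gen : ∀ P : MvPolynomial (ι₁ ⊕ ι₂) K, (∀ y₂, OnS J₂ z₂ y₂ → eval y₂ f₂ ≠ 0 → ∀ y₁,
      OnS J₁ z₁ y₁ → eval (Sum.elim y₁ y₂) P = 0) → ∀ y₁ y₂, OnS J₁ z₁ y₁ → OnS J₂ z₂ y₂ →
      eval (Sum.elim y₁ y₂) P = 0 := by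
    intro P hP y₁ y₂ k1 k2
    by_contra hne
    obtain ⟨y', hy', hne'⟩ := nv_mul (J := J₂) (z := z₂) (g := f₂) (h := fixl y₁ P)
      ⟨z₂, on_refl _ _, h2⟩ ⟨y₂, k2, by rw [eval_fixl]; exact hne⟩
    rw [map_mul] at hne'
    have h3 := right_ne_zero_of_mul hne'
    rw [eval_fixl] at h3
    exact h3 (hP y' hy' (left_ne_zero_of_mul hne') y₁ k1)
  exact ⟨gen G (fun y₂ k1 k2 y₁ k3 => (key y₂ k1 k2 y₁ k3).1) _ _ hy1 hy2,
    gen H (fun y₂ k1 k2 y₁ k3 => (key y₂ k1 k2 y₁ k3).2) _ _ hy1 hy2⟩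

end two

end Pool.Agent.U199.TW
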