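import Pool.Agent.U199.TW.Blk

/-!
# The branch divisor of a product of forms
-/

set_option autoImplicit false
set_option linter.unusedSectionVars false

open MvPolynomial

namespace Pool.Agent.U199.TW

section

variable {r : ℕ} {m : Fin r → ℕ}

/-- the scalars `a` in the block `b` and `1` in the other blocks -/
def gl1 {R : Type} [One R] (b : Fin r) (a : Fin (m b) → R) (j : Σ b, Fin (m b)) : R :=
  if h : j.1 = b then a (h ▸ j.2) else 1

theorem gl1_eq {R : Type} [One R] (b : Fin r) (a : Fin (m b) → R) (i : Fin (m b)) :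
    gl1 b a ⟨b, i⟩ = a i := by
  unfold gl1
  rw [dif_pos rfl]

theorem gl1_ne {R : Type} [One R] (b : Fin r) (a : Fin (m b) → R) (j : Σ b, Fin (m b))
    (h : j.1 ≠ b) : gl1 b a j = 1 := by
  unfold gl1
  rw [dif_neg h]

theorem gl1_ne_zero {R : Type} [Field R] (b : Fin r) (a : Fin (m b) → R) (ha : ∀ i, a i ≠ 0)
    (j : Σ b, Fin (m b)) : gl1 b a j ≠ 0 := by
  obtain ⟨c, i⟩ := j
  by_cases h : c = b
  · subst h
    rw [gl1_eq]
    exact ha i
  · rw [gl1_ne _ _ _ h]
    exact one_ne_zero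

theorem glue_mul {R : Type} [Field R] (b : Fin r) (a : Fin (m b) → R) (y : Fin (m b) × Fin 2 → R)
    (Y : (Σ b, Fin (m b)) × Fin 2 → R) :
    (fun p => gl1 b a p.1 * glue b y Y p) = glue b (fun p => a p.1 * y p) Y := by
  funext p
  obtain ⟨⟨c, i⟩, d⟩ := p
  by_cases h : c = b
  · subst h
    rw [glue_eq, glue_eq, gl1_eq]
  · rw [glue_ne _ _ _ _ h, glue_ne _ _ _ _ h, gl1_ne _ _ _ h, one_mul]

theorem near_inf {K L : Type} [Field K] [NontriviallyNormedField L] (σ : K →+* L)
    (hσ : DenseRange σ) (x : L) {δ : ℝ} (hδ : 0 < δ) : {y : K | ‖σ y - x‖ < δ}.Infinite := by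
  intro hfin
  have h1 : (Metric.ball x δ).Infinite := infinite_of_mem_nhds x (Metric.ball_mem_nhds x hδ)
  have h2 : (Metric.ball x δ \ (σ '' {y : K | ‖σ y - x‖ < δ})).Nonempty :=
    (h1.sdiff (hfin.image σ)).nonempty
  have h3 : IsOpen (Metric.ball x δ \ (σ '' {y : K | ‖σ y - x‖ < δ})) :=
    Metric.isOpen_ball.sdiff (hfin.image σ).isClosed
  obtain ⟨y, hy⟩ := hσ.exists_mem_open h3 h2
  refine hy.2 ⟨y, ?_, rfl⟩
  show ‖σ y - x‖ < δ
  rw [← dist_eq_norm]
  exact hy.1

variable {K : Type} [Field K] [CharZero K] {F : ∀ b : Fin r, MvPolynomial (Fin (m b) × Fin 2) K}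
  {L : Type} [NontriviallyNormedField L]

theorem mem_branch (hF : ∀ b, Pool.Agent.Q35.TT.Hom4 (F b)) (σ : K →+* L) (hσ : DenseRange σ)
    (x : (Σ b, Fin (m b)) × Fin 2 → L) (hx : ∀ j, ∃ c, x (j, c) ≠ 0)
    (g : MvPolynomial ((Σ b, Fin (m b)) × Fin 2) K) :
    g ∈ locB σ (prodF F) x ↔ ∀ b, eval₂ σ (blk x b) (F b) = 0 →
      ∀ k, coeff k (Psi b g) ∈ locB σ (F b) (blk x b) := by
  classical
  constructor
  · rintro ⟨U, hU, hg⟩ b hb k
    have hop : IsOpen {y : (Σ b, Fin (m b)) × Fin 2 → L | ∀ j, ∃ c, y (j, c) ≠ 0} := by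
      have h1 : {y : (Σ b, Fin (m b)) × Fin 2 → L | ∀ j, ∃ c, y (j, c) ≠ 0} =
          ⋂ j, ⋃ c, {y : (Σ b, Fin (m b)) × Fin 2 → L | y (j, c) ≠ 0} := by
        ext y
        simp
      rw [h1]
      exact isOpen_iInter_of_finite fun j => isOpen_iUnion fun c =>
        isOpen_ne.preimage (continuous_apply (j, c))
    obtain ⟨δ, hδ, hball⟩ := Metric.mem_nhds_iff.1 (Filter.inter_mem hU (hop.mem_nhds hx))
    refine ⟨Metric.ball (blk x b) δ, Metric.ball_mem_nhds _ hδ, ?_⟩
    rintro y hy hyF ⟨a', ha', hin⟩ a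
    rw [Metric.mem_ball, dist_pi_lt_iff hδ] at hin
    have hz : MvPolynomial.map (eval (fun p => a p.1 * y p)) (Psi b g) = 0 := by
      refine MvPolynomial.funext_set (fun p => {v : K | ‖σ v - x p‖ < δ})
        (fun p => near_inf σ hσ (x p) hδ) ?_
      intro Y hY
      rw [psi_eval, map_zero]
      have hY' : ∀ p, ‖σ (Y p) - x p‖ < δ := fun p => hY p trivial
      have hxU : (fun p => gl1 b a' p.1 * σ (glue b y Y p)) ∈ Metric.ball x δ := by
        rw [Metric.mem_ball, dist_pi_lt_iff hδ]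
        rintro ⟨⟨c, i⟩, d⟩
        by_cases hc : c = b
        · subst hc
          rw [gl1_eq, glue_eq]
          exact hin (i, d)
        · rw [gl1_ne _ _ _ hc, glue_ne _ _ _ _ hc, one_mul, dist_eq_norm]
          exact hY' _
      obtain ⟨hU1, hU2⟩ := hball hxU
      have hX : ∀ j, ∃ c, glue b y Y (j, c) ≠ 0 := by
        intro j
        obtain ⟨c, hc⟩ := hU2 j
        refine ⟨c, fun h0 => hc ?_⟩
        simp only [h0, map_zero, mul_zero]
      have hG : eval (glue b y Y) (prodF F) = 0 := by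
        rw [eval_prodF]
        exact Finset.prod_eq_zero (Finset.mem_univ b) (by rw [blk_glue]; exact hyF)
      have h5 := hg (glue b y Y) hX hG ⟨gl1 b a', gl1_ne_zero b a' ha', hU1⟩ (gl1 b a)
      rwa [glue_mul] at h5
    have h6 := congrArg (coeff k) hz
    rwa [coeff_map, coeff_zero] at h6
  · intro h
    have hV : ∀ b, ∃ V ∈ nhds (blk x b), ∀ y : Fin (m b) × Fin 2 → K, (∀ j, ∃ c, y (j, c) ≠ 0) →
        eval y (F b) = 0 → (∃ a' : Fin (m b) → L, (∀ j, a' j ≠ 0) ∧
          (fun p => a' p.1 * σ (y p)) ∈ V) →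
        ∀ (a : Fin (m b) → K) (Y : (Σ b, Fin (m b)) × Fin 2 → K),
          eval (glue b (fun p => a p.1 * y p) Y) g = 0 := by
      intro b
      by_cases hb : eval₂ σ (blk x b) (F b) = 0
      · choose V hV hV2 using h b hb
        refine ⟨⋂ k ∈ (Psi b g).support, V k, (Filter.biInter_finset_mem _).2 fun k _ => hV k, ?_⟩
        rintro y hy hyF ⟨a', ha', hin⟩ a Y
        rw [← psi_eval]
        have hz : MvPolynomial.map (eval (fun p => a p.1 * y p)) (Psi b g) = 0 := by
          ext k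
          rw [coeff_map, coeff_zero]
          by_cases hk : k ∈ (Psi b g).support
          · exact hV2 k y hy hyF ⟨a', ha', Set.mem_iInter₂.1 hin k hk⟩ a
          · rw [notMem_support_iff.1 hk, map_zero]
        rw [hz, map_zero]
      · have hcont : Continuous (fun y : Fin (m b) × Fin 2 → L => eval₂ σ y (F b)) := by
          have : (fun y : Fin (m b) × Fin 2 → L => eval₂ σ y (F b)) =
              fun y => eval y (MvPolynomial.map σ (F b)) := by
            funext y
            rw [eval_map]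
          rw [this]
          exact MvPolynomial.continuous_eval _
        refine ⟨{y | eval₂ σ y (F b) ≠ 0}, (isOpen_ne.preimage hcont).mem_nhds hb, ?_⟩
        rintro y hy hyF ⟨a', ha', hin⟩ a Y
        exfalso
        apply hin
        rw [scale₂ hF σ b]
        have h1 : eval₂ σ (fun p => σ (y p)) (F b) = σ (eval y (F b)) := by
          rw [← coe_eval₂Hom]
          have h2 : (eval₂Hom σ fun p => σ (y p)) = σ.comp (eval y) := by
            apply MvPolynomial.ringHom_ext
            · intro s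
              simp
            · intro p
              simp
          rw [h2]
          rfl
        rw [h1, hyF, map_zero, mul_zero]
    choose V hV hV2 using hV
    have hcb : ∀ b, Continuous (fun y : (Σ b, Fin (m b)) × Fin 2 → L => blk y b) := fun b =>
      continuous_pi fun p => continuous_apply _
    refine ⟨⋂ b, (fun y => blk y b) ⁻¹' V b,
      (Filter.iInter_mem).2 fun b => (hcb b).continuousAt (hV b), ?_⟩
    rintro X hX hG ⟨a', ha', hin⟩ a
    rw [eval_prodF] at hG
    obtain ⟨b, -, hb⟩ := Finset.prod_eq_zero_iff.1 hG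
    have h5 := hV2 b (blk X b) (fun j => hX ⟨b, j⟩) hb
      ⟨fun i => a' ⟨b, i⟩, fun i => ha' _, Set.mem_iInter.1 hin b⟩ (fun i => a ⟨b, i⟩)
      (fun p => a p.1 * X p)
    have h6 : (fun p : Fin (m b) × Fin 2 => a ⟨b, p.1⟩ * blk X b p) =
        blk (fun p => a p.1 * X p) b := rfl
    rw [h6, glue_blk] at h5
    exact h5

/-- If Mazur's question has a positive answer for the divisors `F_b = 0` then it has a positive answer
for the divisor `∏ F_b = 0`. -/
theorem branch_prod (hF : ∀ b, Pool.Agent.Q35.TT.Hom4 (F b)) (σ : K →+* L) (hσ : DenseRange σ)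
    (hB : ∀ b, {J | ∃ x : Fin (m b) × Fin 2 → L, (∀ j, ∃ c, x (j, c) ≠ 0) ∧
      eval₂ σ x (F b) = 0 ∧ J = locB σ (F b) x}.Finite) :
    {J | ∃ x : (Σ b, Fin (m b)) × Fin 2 → L, (∀ j, ∃ c, x (j, c) ≠ 0) ∧
      eval₂ σ x (prodF F) = 0 ∧ J = locB σ (prodF F) x}.Finite := by
  classical
  have h1 := Set.Finite.pi' (fun b => ((hB b).image some).insert none)
  refine (h1.image (fun s => {g | ∀ b J, s b = some J → ∀ k, coeff k (Psi b g) ∈ J})).subset ?_
  rintro J ⟨x, hx, -, rfl⟩
  refine ⟨fun b => if eval₂ σ (blk x b) (F b) = 0 then some (locB σ (F b) (blk x b)) else none,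
    fun b => ?_, ?_⟩
  · show (if eval₂ σ (blk x b) (F b) = 0 then some (locB σ (F b) (blk x b)) else none) ∈ _
    by_cases hb : eval₂ σ (blk x b) (F b) = 0
    · rw [if_pos hb]
      right
      exact ⟨_, ⟨blk x b, fun j => hx ⟨b, j⟩, hb, rfl⟩, rfl⟩
    · rw [if_neg hb]
      left
      rfl
  · ext g
    rw [mem_branch hF σ hσ x hx g]
    constructor
    · intro h b hb k
      refine h b _ ?_ k
      show (if eval₂ σ (blk x b) (F b) = 0 then some (locB σ (F b) (blk x b)) else none) = _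
      rw [if_pos hb]
    · intro h b J hJ k
      change (if eval₂ σ (blk x b) (F b) = 0 then some (locB σ (F b) (blk x b)) else none) = _ at hJ
      by_cases hb : eval₂ σ (blk x b) (F b) = 0
      · rw [if_pos hb, Option.some.injEq] at hJ
        rw [← hJ]
        exact h b hb k
      · rw [if_neg hb] at hJ
        exact absurd hJ (by simp)

end

end Pool.Agent.U199.TW
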