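import Pool.Agent.U199.TW.TU

/-!
# The ideals of the local Zariski closures, any finite set of variables
(adapted from `Pool.Agent.Q224.TT.Mzn` by helper224)
-/

set_option autoImplicit false
set_option linter.unusedSectionVars false

open MvPolynomial

namespace Pool.Agent.U199.TW

open Pool.Agent.Q224.TT (finite_sq)

/-- The polynomials in the coordinates (`none` is `w`) which vanish at the `K`-points of `w² = f`
close to the point `(w, x)`. -/
def locS {K L : Type} [Field K] [NontriviallyNormedField L] {ι : Type} (σ : K →+* L)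
    (f : MvPolynomial ι K) (w : L) (x : ι → L) : Set (MvPolynomial (Option ι) K) :=
  {g | ∃ U ∈ nhds (w, x), ∀ (W : K) (z : ι → K), W ^ 2 = eval z f →
    (σ W, fun i => σ (z i)) ∈ U → eval (fun o => o.elim W z) g = 0}

section

variable {K : Type} [Field K] {ι : Type}

/-- `g = A + w B` modulo `w² - f` -/
theorem dec (f : MvPolynomial ι K) (g : MvPolynomial (Option ι) K) :
    ∃ (A B : MvPolynomial ι K) (Q : MvPolynomial (Option ι) K),
      g = rename some A + X none * rename some B + (X none ^ 2 - rename some f) * Q := by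
  induction g using MvPolynomial.induction_on with
  | C a => exact ⟨C a, 0, 0, by simp⟩
  | add p q hp hq =>
    obtain ⟨A, B, Q, h⟩ := hp
    obtain ⟨A', B', Q', h'⟩ := hq
    refine ⟨A + A', B + B', Q + Q', ?_⟩
    rw [h, h', map_add, map_add]
    ring
  | mul_X p o hp =>
    obtain ⟨A, B, Q, h⟩ := hp
    cases o with
    | none =>
      refine ⟨B * f, A, B.rename some + Q * X none, ?_⟩
      rw [h, map_mul]
      ring
    | some i =>
      refine ⟨A * X i, B * X i, Q * X (some i), ?_⟩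
      rw [h, map_mul, map_mul, rename_X]
      ring

theorem eval_opt (A : MvPolynomial ι K) (W : K) (z : ι → K) :
    eval (fun o => o.elim W z) (rename some A) = eval z A := by
  rw [eval_rename]
  rfl

theorem eval_dec {f A B : MvPolynomial ι K} {g Q : MvPolynomial (Option ι) K}
    (h : g = rename some A + X none * rename some B + (X none ^ 2 - rename some f) * Q) (W : K)
    (z : ι → K) (hW : W ^ 2 = eval z f) :
    eval (fun o => o.elim W z) g = eval z A + W * eval z B := by
  rw [h, map_add, map_add, map_mul, map_mul, map_sub, map_pow, eval_X, eval_opt, eval_opt, eval_opt,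
    ← hW]
  simp only [Option.elim_none]
  ring

/-- the polynomials which vanish at the `K`-points over a plane -/
def IP (f : MvPolynomial ι K) (P : Set (ι → K)) : Set (MvPolynomial (Option ι) K) :=
  {g | ∀ (W' : K) (z' : ι → K), W' ^ 2 = eval z' f → z' ∈ P → eval (fun o => o.elim W' z') g = 0}

/-- the restriction to the branch divisor -/
noncomputable def br (g : MvPolynomial (Option ι) K) : MvPolynomial ι K :=
  aeval (fun o => o.elim 0 X) g

theorem eval_br (g : MvPolynomial (Option ι) K) (z : ι → K) :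
    eval z (br g) = eval (fun o => o.elim 0 z) g := by
  unfold br
  rw [← MvPolynomial.coe_aeval_eq_eval, ← MvPolynomial.coe_aeval_eq_eval]
  change (aeval z) ((aeval (fun o : Option ι => o.elim 0 X)) g) = (aeval (fun o : Option ι => o.elim 0 z)) g
  rw [← AlgHom.comp_apply]
  congr 1
  apply MvPolynomial.algHom_ext
  intro o
  rw [AlgHom.comp_apply, aeval_X, aeval_X]
  cases o with
  | none => simp
  | some i => simp

/-- The polynomials `A`, `B` vanish on the plane. -/
theorem key_AB [Finite ι] {L : Type} [NontriviallyNormedField L] (σ : K →+* L)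
    {f : MvPolynomial ι K} {e : K} (he : e ≠ 0) {J : Set ι} {z : ι → K} {W : K}
    (hfull : FullS σ (C e * f) J z W) (hns : NS f J z) {g Q : MvPolynomial (Option ι) K}
    {A B : MvPolynomial ι K}
    (hg : g ∈ locS σ (C e * f) (σ W) (fun i => σ (z i)))
    (h : g = rename some A + X none * rename some B + (X none ^ 2 - rename some (C e * f)) * Q) :
    ∀ y, OnS J z y → eval y A = 0 ∧ eval y B = 0 := by
  have := Fintype.ofFinite ι
  obtain ⟨U, hU, hg⟩ := hg
  obtain ⟨ε, hε, hball⟩ := Metric.mem_nhds_iff.1 hU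
  refine hns e he A B ?_
  intro y hy
  by_contra hne
  obtain ⟨z1, w1, k1, k2, k3, k4, k5⟩ := hfull ε hε (A ^ 2 - C e * f * B ^ 2) ⟨y, hy, by
    rw [map_sub, map_mul, map_mul, map_pow, map_pow, eval_C, sub_ne_zero]
    exact hne⟩
  apply k5
  have hin : (σ w1, fun i => σ (z1 i)) ∈ U := by
    apply hball
    rw [Metric.mem_ball, Prod.dist_eq, max_lt_iff]
    constructor
    · rw [dist_eq_norm]
      exact k4
    · rw [dist_pi_lt_iff hε]
      intro i
      rw [dist_eq_norm]
      exact k3 i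
  have h5 := hg w1 z1 k1 hin
  rw [eval_dec h w1 z1 k1] at h5
  rw [map_sub, map_mul, map_pow, map_pow, ← k1]
  have h6 : eval z1 A = - (w1 * eval z1 B) := eq_neg_of_add_eq_zero_left h5
  rw [h6]
  ring

theorem loc_sub [Finite ι] {L : Type} [NontriviallyNormedField L] (σ : K →+* L)
    {f : MvPolynomial ι K} {e : K} (he : e ≠ 0) {J : Set ι} {z : ι → K} {W : K}
    (hfull : FullS σ (C e * f) J z W) (hns : NS f J z) :
    locS σ (C e * f) (σ W) (fun i => σ (z i)) ⊆ IP (C e * f) {y | OnS J z y} := by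
  intro g hg W' z' hW' hz'
  obtain ⟨A, B, Q, hAB⟩ := dec (C e * f) g
  obtain ⟨hA, hB⟩ := key_AB σ he hfull hns hg hAB z' hz'
  rw [eval_dec hAB W' z' hW', hA, hB]
  ring

theorem loc_dvd [Finite ι] [Infinite K] {L : Type} [NontriviallyNormedField L] (σ : K →+* L)
    {f : MvPolynomial ι K} {e : K} (he : e ≠ 0) {z : ι → K} {W : K}
    (hfull : FullS σ (C e * f) Set.univ z W) (hns : NS f Set.univ z)
    {g : MvPolynomial (Option ι) K} (hg : g ∈ locS σ (C e * f) (σ W) (fun i => σ (z i))) :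
    (X none ^ 2 - rename some (C e * f)) ∣ g := by
  obtain ⟨A, B, Q, hAB⟩ := dec (C e * f) g
  have hall := key_AB σ he hfull hns hg hAB
  have hon : ∀ y : ι → K, OnS Set.univ z y := fun y k hk => absurd (Set.mem_univ k) hk
  have hA : A = 0 := MvPolynomial.funext fun y => by rw [(hall y (hon y)).1, map_zero]
  have hB : B = 0 := MvPolynomial.funext fun y => by rw [(hall y (hon y)).2, map_zero]
  refine ⟨Q, ?_⟩
  rw [hAB, hA, hB, map_zero]
  ring

end

section

variable {K : Type} [Field K] {ι : Type} {L : Type} [NontriviallyNormedField L]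

/-- the relation between a point and a plane through it -/
def RR (σ : K →+* L) (f : MvPolynomial ι K) (W : K) (z : ι → K) (P : Set (ι → K)) : Prop :=
  z ∈ P ∧ locS σ f (σ W) (fun i => σ (z i)) ⊆ IP f P

/-- the planes near a point -/
def E1 (σ : K →+* L) (f : MvPolynomial ι K) (EE : Set (Set (ι → K))) (w : L) (x : ι → L) :
    Set (Set (ι → K)) :=
  {P | P ∈ EE ∧ ∀ U ∈ nhds (w, x), ∃ (W : K) (z : ι → K), (σ W, fun i => σ (z i)) ∈ U ∧ RR σ f W z P}

/-- the exceptional points over a point -/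
def T1 (σ : K →+* L) (TT0 : Set (K × (ι → K))) (w : L) (x : ι → L) : Set (K × (ι → K)) :=
  {t | t ∈ TT0 ∧ (σ t.1, fun i => σ (t.2 i)) = (w, x)}

/-- the local ideal of the branch divisor -/
def JB (σ : K →+* L) (f : MvPolynomial ι K) (x : ι → L) : Set (MvPolynomial ι K) :=
  {g | ∃ U ∈ nhds x, ∀ z : ι → K, eval z f = 0 → (fun i => σ (z i)) ∈ U → eval z g = 0}

/-- the set of polynomials determined by the data -/
def PHI (f : MvPolynomial ι K) (E' : Set (Set (ι → K))) (T' : Set (K × (ι → K)))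
    (Q : Set (MvPolynomial (Option ι) K)) : Set (MvPolynomial (Option ι) K) :=
  {g | (∀ P ∈ E', g ∈ IP f P) ∧ (∀ t ∈ T', eval (fun o => o.elim t.1 t.2) g = 0) ∧ g ∈ Q}

open Classical in
/-- the condition at the branch divisor -/
noncomputable def QQ (σ : K →+* L) (f : MvPolynomial ι K) (w : L) (x : ι → L) :
    Set (MvPolynomial (Option ι) K) :=
  if w = 0 then {g | br g ∈ JB σ f x} else Set.univ

theorem locS_eq [Finite ι] (σ : K →+* L) (f : MvPolynomial ι K) {EE : Set (Set (ι → K))}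
    {TT0 : Set (K × (ι → K))} (hE : EE.Finite) (hT : TT0.Finite)
    (hT2 : ∀ t ∈ TT0, t.1 ^ 2 = eval t.2 f)
    (hkey : ∀ (W : K) (z : ι → K), W ≠ 0 → W ^ 2 = eval z f →
      (W, z) ∈ TT0 ∨ ∃ P ∈ EE, RR σ f W z P)
    (w : L) (x : ι → L) : locS σ f w x = PHI f (E1 σ f EE w x) (T1 σ TT0 w x) (QQ σ f w x) := by
  classical
  have := Fintype.ofFinite ι
  apply Set.Subset.antisymm
  · rintro g ⟨U, hU, hg⟩
    refine ⟨?_, ?_, ?_⟩
    · rintro P ⟨-, hP⟩
      obtain ⟨V, hVU, hVo, hV⟩ := mem_nhds_iff.1 hU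
      obtain ⟨W, z, hWz, hR⟩ := hP V (hVo.mem_nhds hV)
      exact hR.2 ⟨U, Filter.mem_of_superset (hVo.mem_nhds hWz) hVU, hg⟩
    · rintro t ⟨ht, ht2⟩
      refine hg t.1 t.2 (hT2 t ht) ?_
      rw [ht2]
      exact mem_of_mem_nhds hU
    · unfold QQ
      by_cases hw : w = 0
      · rw [if_pos hw]
        subst hw
        refine ⟨{x' | ((0 : L), x') ∈ U}, ?_, ?_⟩
        · have hc : Continuous (fun x' : ι → L => ((0 : L), x')) := by fun_prop
          exact hc.continuousAt.preimage_mem_nhds hU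
        · intro z hz hzU
          rw [eval_br]
          refine hg 0 z ?_ ?_
          · rw [hz]
            ring
          · rw [map_zero]
            exact hzU
      · rw [if_neg hw]
        exact Set.mem_univ _
  · rintro g ⟨h1, h2, h3⟩
    -- the neighbourhoods
    have hA : ∀ P, ∃ U ∈ nhds (w, x), P ∈ EE → P ∉ E1 σ f EE w x → ∀ (W : K) (z : ι → K),
        (σ W, fun i => σ (z i)) ∈ U → ¬ RR σ f W z P := by
      intro P
      by_cases hP : P ∈ EE ∧ P ∉ E1 σ f EE w x
      · have h4 : ¬ ∀ U ∈ nhds (w, x), ∃ (W : K) (z : ι → K), (σ W, fun i => σ (z i)) ∈ U ∧ RR σ f W z P :=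
          fun h => hP.2 ⟨hP.1, h⟩
        push Not at h4
        obtain ⟨U, hU, h5⟩ := h4
        exact ⟨U, hU, fun _ _ => h5⟩
      · exact ⟨Set.univ, Filter.univ_mem, fun h4 h5 => absurd ⟨h4, h5⟩ hP⟩
    have hB : ∀ t : K × (ι → K), ∃ U ∈ nhds (w, x), t ∈ TT0 → (σ t.1, fun i => σ (t.2 i)) ∈ U →
        t ∈ T1 σ TT0 w x := by
      intro t
      by_cases ht : (σ t.1, fun i => σ (t.2 i)) = (w, x)
      · exact ⟨Set.univ, Filter.univ_mem, fun h4 _ => ⟨h4, ht⟩⟩
      · refine ⟨{(σ t.1, fun i => σ (t.2 i))}ᶜ, ?_, fun _ h5 => absurd rfl h5⟩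
        exact isOpen_compl_singleton.mem_nhds (fun h => ht h.symm)
    have hC : ∃ U ∈ nhds (w, x), ∀ (z : ι → K), eval z f = 0 → ((0 : L), fun i => σ (z i)) ∈ U →
        eval (fun o => o.elim 0 z) g = 0 := by
      unfold QQ at h3
      by_cases hw : w = 0
      · rw [if_pos hw] at h3
        obtain ⟨U, hU, h5⟩ := h3
        refine ⟨{q | q.2 ∈ U}, ?_, ?_⟩
        · exact continuous_snd.continuousAt.preimage_mem_nhds hU
        · intro z hz hzU
          rw [← eval_br]
          exact h5 z hz hzU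
      · refine ⟨{q | q.1 ≠ 0}, ?_, ?_⟩
        · exact (isOpen_compl_singleton.preimage continuous_fst).mem_nhds hw
        · intro z _ hzU
          exact absurd rfl hzU
    choose UA hUA hUA1 using hA
    choose UB hUB hUB1 using hB
    obtain ⟨UC, hUC, hUC1⟩ := hC
    refine ⟨(⋂ P ∈ EE, UA P) ∩ (⋂ t ∈ TT0, UB t) ∩ UC,
      Filter.inter_mem (Filter.inter_mem ((Filter.biInter_mem hE).2 fun P _ => hUA P)
        ((Filter.biInter_mem hT).2 fun t _ => hUB t)) hUC, ?_⟩
    rintro W z hWz ⟨⟨hinA, hinB⟩, hinC⟩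
    rw [Set.mem_iInter₂] at hinA hinB
    by_cases hWz0 : W = 0
    · subst hWz0
      rw [map_zero] at hinC
      refine hUC1 z ?_ hinC
      rw [← hWz]
      ring
    · rcases hkey W z hWz0 hWz with ht | ⟨P, hP, hR⟩
      · exact h2 (W, z) (hUB1 (W, z) ht (hinB (W, z) ht))
      · have hPE : P ∈ E1 σ f EE w x := by
          by_contra hPn
          exact hUA1 P hP hPn W z (hinA P hP) hR
        exact h1 P hPE W z hWz hR.1

/-- The local closures of all twists and the reduction to the branch divisor. -/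
theorem loc_fin [Finite ι] [CompleteSpace L] (σ : K →+* L) (hσ : DenseRange σ)
    {f : MvPolynomial ι K} (hf : TU f) {e : K} (he : e ≠ 0) :
    {J | ∃ (w : L) (x : ι → L), w ≠ 0 ∧ w ^ 2 = eval₂ σ x (C e * f) ∧
      J = locS σ (C e * f) w x}.Finite ∧
    ({J : Set (MvPolynomial ι K) | ∃ x : ι → L, eval₂ σ x (C e * f) = 0 ∧
        J = {g | ∃ U ∈ nhds x, ∀ z : ι → K, eval z (C e * f) = 0 → (fun i => σ (z i)) ∈ U →
          eval z g = 0}}.Finite →
      {J | ∃ (w : L) (x : ι → L), w ^ 2 = eval₂ σ x (C e * f) ∧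
        J = locS σ (C e * f) w x}.Finite) := by
  classical
  obtain ⟨T, E, hT, hE, hTU⟩ := hf
  set TT0 : Set (K × (ι → K)) := {p | p.1 ^ 2 = eval p.2 (C e * f) ∧ p.2 ∈ T} with hTT0
  have hT0 : TT0.Finite := by
    refine Set.Finite.subset (hT.biUnion
      (t := fun z => (fun W : K => (W, z)) '' {W : K | W ^ 2 = eval z (C e * f)})
      fun z _ => (finite_sq _).image _) ?_
    rintro ⟨W, z⟩ ⟨h1, h2⟩
    exact Set.mem_biUnion (x := z) h2 ⟨W, h1, rfl⟩
  have hkey : ∀ (W : K) (z : ι → K), W ≠ 0 → W ^ 2 = eval z (C e * f) →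
      (W, z) ∈ TT0 ∨ ∃ P ∈ E, RR σ (C e * f) W z P := by
    intro W z hW hWz
    rcases hTU L σ hσ e he z W hW (by rw [hWz, map_mul, eval_C]) with h | ⟨J, h1, h2, h3⟩
    · exact Or.inl ⟨hWz, h⟩
    · exact Or.inr ⟨_, h2, on_refl J z, loc_sub σ he h1 h3⟩
  have heq := locS_eq σ (C e * f) hE hT0 (fun t ht => ht.1) hkey
  have hsub1 : ∀ w x, E1 σ (C e * f) E w x ⊆ E := fun w x P hP => hP.1
  have hsub2 : ∀ w x, T1 σ TT0 w x ⊆ TT0 := fun w x t ht => ht.1
  refine ⟨?_, ?_⟩
  · refine Set.Finite.subset (Set.Finite.image (fun q : Set (Set (ι → K)) × Set (K × (ι → K)) =>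
      PHI (C e * f) q.1 q.2 Set.univ) (hE.finite_subsets.prod hT0.finite_subsets)) ?_
    rintro J ⟨w, x, hw, -, rfl⟩
    refine ⟨(E1 σ (C e * f) E w x, T1 σ TT0 w x), ⟨hsub1 w x, hsub2 w x⟩, ?_⟩
    rw [heq w x]
    unfold QQ
    rw [if_neg hw]
  · intro hB
    refine Set.Finite.subset (Set.Finite.image
      (fun q : (Set (Set (ι → K)) × Set (K × (ι → K))) × Set (MvPolynomial (Option ι) K) =>
      PHI (C e * f) q.1.1 q.1.2 q.2) ((hE.finite_subsets.prod hT0.finite_subsets).prod
        ((hB.image (fun J => {g : MvPolynomial (Option ι) K | br g ∈ J})).insert Set.univ))) ?_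
    rintro J ⟨w, x, hwx, rfl⟩
    refine ⟨((E1 σ (C e * f) E w x, T1 σ TT0 w x), QQ σ (C e * f) w x),
      ⟨⟨hsub1 w x, hsub2 w x⟩, ?_⟩, ?_⟩
    · change QQ σ (C e * f) w x ∈ _
      unfold QQ
      by_cases hw : w = 0
      · rw [if_pos hw]
        right
        refine ⟨JB σ (C e * f) x, ⟨x, ?_, rfl⟩, rfl⟩
        rw [← hwx, hw]
        ring
      · rw [if_neg hw]
        left
        rfl
    · exact (heq w x).symm

end

end Pool.Agent.U199.TW
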