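import Pool.Agent.U199.TW.Proj

/-!
# The projective varieties `w² = e G`, any finite set of factors `ℙ¹`
-/

set_option autoImplicit false
set_option linter.unusedSectionVars false

open MvPolynomial

namespace Pool.Agent.U199.TW

section

variable {K L : Type} [Field K] [Infinite K] [NontriviallyNormedField L] {ι : Type} [Fintype ι]
  [DecidableEq ι]

theorem proj_fin [CompleteSpace L] (σ : K →+* L) (hσ : DenseRange σ)
    (G : MvPolynomial (ι × Fin 2) K) (f : (ι → Fin 2) → MvPolynomial ι K)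
    (sK : ∀ (X : ι × Fin 2 → K) (a : ι → K), eval (fun p => a p.1 * X p) G =
      (∏ j, a j) ^ 4 * eval X G)
    (sL : ∀ (x : ι × Fin 2 → L) (a : ι → L), eval₂ σ (fun p => a p.1 * x p) G =
      (∏ j, a j) ^ 4 * eval₂ σ x G)
    (cK : ∀ (ε : ι → Fin 2) (z : ι → K), eval z (f ε) = eval (pt ε z) G)
    (cL : ∀ (ε : ι → Fin 2) (z : ι → L), eval₂ σ z (f ε) = eval₂ σ (pt ε z) G)
    (hTU : ∀ ε, TU (f ε)) {e : K} (he : e ≠ 0) :
    {J | ∃ (w : L) (x : ι × Fin 2 → L), w ≠ 0 ∧ w ^ 2 = eval₂ σ x (C e * G) ∧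
      J = locF σ (C e * G) w x}.Finite ∧
    ({J | ∃ x : ι × Fin 2 → L, (∀ j, ∃ b, x (j, b) ≠ 0) ∧ eval₂ σ x G = 0 ∧
        J = locB σ G x}.Finite →
      {J | ∃ (w : L) (x : ι × Fin 2 → L), (∀ j, ∃ b, x (j, b) ≠ 0) ∧
        w ^ 2 = eval₂ σ x (C e * G) ∧ J = locF σ (C e * G) w x}.Finite) := by
  have hσe : σ e ≠ 0 := (_root_.map_ne_zero σ).2 he
  have sKe : ∀ (X : ι × Fin 2 → K) (a : ι → K), eval (fun p => a p.1 * X p) (C e * G) =
      (∏ j, a j) ^ 4 * eval X (C e * G) := by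
    intro X a
    rw [map_mul, map_mul, eval_C, eval_C, sK]
    ring
  have cKe : ∀ (ε : ι → Fin 2) (z : ι → K), eval z (C e * f ε) = eval (pt ε z) (C e * G) := by
    intro ε z
    rw [map_mul, map_mul, eval_C, eval_C, cK]
  have cLe : ∀ (ε : ι → Fin 2) (z : ι → L), eval₂ σ z (C e * f ε) =
      σ e * eval₂ σ (pt ε z) G := by
    intro ε z
    rw [eval₂_mul, eval₂_C, cL]
  have eLe : ∀ x : ι × Fin 2 → L, eval₂ σ x (C e * G) = σ e * eval₂ σ x G := by
    intro x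
    rw [eval₂_mul, eval₂_C]
  have MZ := fun ε : ι → Fin 2 => loc_fin σ hσ (hTU ε) he
  -- from a chart to the projective variety
  have tr : ∀ (ε : ι → Fin 2) (Q : L → Prop), (∀ w a : L, a ≠ 0 → Q w → Q (w / a)) →
      {J | ∃ (w : L) (x : ι → L), Q w ∧ w ^ 2 = eval₂ σ x (C e * f ε) ∧
        J = locS σ (C e * f ε) w x}.Finite →
      {J | ∃ (w : L) (x : ι × Fin 2 → L), Q w ∧ (∀ j, x (j, ε j) ≠ 0) ∧
        w ^ 2 = eval₂ σ x (C e * G) ∧ J = locF σ (C e * G) w x}.Finite := by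
    intro ε Q hQ hfin
    refine (hfin.image (fun J => {g | ∀ k, coeff k (Ph ε g) ∈ J})).subset ?_
    rintro J ⟨w, x, hw, hx, hs, rfl⟩
    have hP : (∏ j, x (j, ε j)) ≠ 0 := Finset.prod_ne_zero_iff.2 fun j _ => hx j
    refine ⟨locS σ (C e * f ε) (w / (∏ j, x (j, ε j)) ^ 2) (zc ε x), ⟨_, _, ?_, ?_, rfl⟩,
      Set.ext fun g => (locF_iff σ (cKe ε) sKe w x hx g).symm⟩
    · exact hQ _ _ (pow_ne_zero 2 hP) hw
    · have h5 := sL (pt ε (zc ε x)) (fun j => x (j, ε j))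
      have hxe : (fun p : ι × Fin 2 => x (p.1, ε p.1) * pt ε (zc ε x) p) = x :=
        funext fun p => pt_zc ε x hx p
      rw [hxe] at h5
      rw [div_pow, hs, eLe, cLe, h5, ← pow_mul, mul_left_comm]
      exact mul_div_cancel_left₀ _ (pow_ne_zero _ hP)
  refine ⟨?_, ?_⟩
  · refine (Set.finite_iUnion fun ε : ι → Fin 2 => tr ε (fun w => w ≠ 0)
      (fun w a ha hw => div_ne_zero hw ha) (MZ ε).1).subset ?_
    rintro J ⟨w, x, hw, hs, rfl⟩
    have hFx : eval₂ σ x G ≠ 0 := by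
      intro h0
      rw [eLe, h0, mul_zero] at hs
      exact hw (pow_eq_zero_iff two_ne_zero |>.1 hs)
    choose ε hε using pair_ne (fun x => eval₂ σ x G) sL hFx
    rw [Set.mem_iUnion]
    exact ⟨ε, w, x, hw, hε, hs, rfl⟩
  · intro hB
    have hz : ∀ (ε : ι → Fin 2) (z : ι → K), eval z (C e * f ε) = 0 ↔
        eval (pt ε z) G = 0 := by
      intro ε z
      rw [map_mul, eval_C, cK, mul_eq_zero, or_iff_right he]
    have hfin : ∀ ε : ι → Fin 2, {J : Set (MvPolynomial (ι) K) | ∃ x : ι → L,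
        eval₂ σ x (C e * f ε) = 0 ∧
          J = {g | ∃ U ∈ nhds x, ∀ z : ι → K, eval z (C e * f ε) = 0 →
            (fun i => σ (z i)) ∈ U → eval z g = 0}}.Finite := by
      intro ε
      choose N H hH using homog (K := K) ε
      refine (hB.image (fun J => {g | H g ∈ J})).subset ?_
      rintro J ⟨x, hx, rfl⟩
      refine ⟨locB σ G (pt ε x), ⟨pt ε x, fun j => ⟨ε j, by rw [pt_self]; exact one_ne_zero⟩, ?_, rfl⟩, ?_⟩
      · rw [cLe] at hx
        exact (mul_eq_zero.1 hx).resolve_left hσe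
      · ext g
        exact (locB_iff σ (hz ε) sK x g (hH g)).symm
    refine (Set.finite_iUnion fun ε : ι → Fin 2 => tr ε (fun _ => True)
      (fun w a ha hw => trivial) (((MZ ε).2 (hfin ε)).subset ?_)).subset ?_
    · rintro J ⟨w, x, -, hs, hJ⟩
      exact ⟨w, x, hs, hJ⟩
    · rintro J ⟨w, x, hx, hs, rfl⟩
      choose ε hε using hx
      rw [Set.mem_iUnion]
      exact ⟨ε, w, x, trivial, hε, hs, rfl⟩

theorem proj_dvd (σ : K →+* L) (G : MvPolynomial (ι × Fin 2) K) {ε : ι → Fin 2}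
    {f : MvPolynomial ι K}
    (sK : ∀ (X : ι × Fin 2 → K) (a : ι → K), eval (fun p => a p.1 * X p) G =
      (∏ j, a j) ^ 4 * eval X G)
    (cK : ∀ z : ι → K, eval z f = eval (pt ε z) G) {e : K} (he : e ≠ 0) (W : K)
    (X : ι × Fin 2 → K) (hX : ∀ j, X (j, ε j) ≠ 0) (hW : W ≠ 0)
    (hs : W ^ 2 = eval X (C e * G)) (hPF : PF σ f (zc ε X)) (hNS : NS f Set.univ (zc ε X))
    (g : MvPolynomial (Option (ι × Fin 2)) K)
    (hg : g ∈ locF σ (C e * G) (σ W) (fun p => σ (X p))) :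
    (MvPolynomial.X none ^ 2 - rename some (C e * G)) ∣ g := by
  have sKe : ∀ (X : ι × Fin 2 → K) (a : ι → K), eval (fun p => a p.1 * X p) (C e * G) =
      (∏ j, a j) ^ 4 * eval X (C e * G) := by
    intro X a
    rw [map_mul, map_mul, eval_C, eval_C, sK]
    ring
  have cKe : ∀ z : ι → K, eval z (C e * f) = eval (pt ε z) (C e * G) := by
    intro z
    rw [map_mul, map_mul, eval_C, eval_C, cK]
  have hP : (∏ j, X (j, ε j)) ≠ 0 := Finset.prod_ne_zero_iff.2 fun j _ => hX j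
  have hXe : (fun p : ι × Fin 2 => X (p.1, ε p.1) * pt ε (zc ε X) p) = X :=
    funext fun p => pt_zc ε X hX p
  have hσX : ∀ j, (fun p => σ (X p)) (j, ε j) ≠ 0 := fun j => (_root_.map_ne_zero σ).2 (hX j)
  have hWz : (W / (∏ j, X (j, ε j)) ^ 2) ^ 2 = e * eval (zc ε X) f := by
    have h5 := sKe (pt ε (zc ε X)) (fun j => X (j, ε j))
    rw [hXe, ← cKe] at h5
    rw [div_pow, hs, h5, ← pow_mul, map_mul, eval_C]
    exact mul_div_cancel_left₀ _ (pow_ne_zero _ hP)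
  refine dvd_of ε cKe sKe g fun k => ?_
  refine loc_dvd σ he (hPF e he (W / (∏ j, X (j, ε j)) ^ 2)
    (div_ne_zero hW (pow_ne_zero 2 hP)) hWz) hNS ?_
  have h5 := (locF_iff σ cKe sKe (σ W) (fun p => σ (X p)) hσX g).1 hg k
  have e1 : σ W / (∏ j, (fun p => σ (X p)) (j, ε j)) ^ 2 = σ (W / (∏ j, X (j, ε j)) ^ 2) := by
    rw [map_div₀, map_pow, map_prod]
  rw [e1, zc_map] at h5
  exact h5

end

end Pool.Agent.U199.TW
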